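import Pool.Agent.Lib.MP_6a3dac_ag.Mg.G008
import Pool.Agent.Lib.MP_6a3dac_ag.Mg.G009
import Pool.Agent.Lib.MP_6a3dac_ag.Mg.G005

/-!
# Regular models of hypersurfaces over a Dedekind domain
-/

set_option autoImplicit false
set_option linter.unusedSectionVars false

namespace Pool.Agent.Lib.MP_6a3dac_ag.Maj

open MvPolynomial IsLocalRing IsDedekindDomain CategoryTheory Limits AlgebraicGeometry
open Pool.Agent.Lib.MP_6a3dac_ag.DNF

section Aux

theorem m2_span_assoc {B : Type} [CommRing B] [IsDomain B] {a b : B} (h : Associated a b)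
    (S : Set B) : Ideal.span (insert a S) = Ideal.span (insert b S) := by
  rw [Ideal.span_insert, Ideal.span_insert,
    Ideal.span_singleton_eq_span_singleton.mpr h]

theorem m2_odpForm_assoc {O : Type} [CommRing O] [IsDomain O] {n : ℕ} {ϖ ϖ' : O}
    (h : Associated ϖ ϖ') {f : MvPolynomial (Fin (n + 1)) O} (hf : OdpForm ϖ f) :
    OdpForm ϖ' f := by
  have hC : ∀ i : Fin (n + 1), Associated (C ϖ : MvPolynomial {l : Fin (n + 1) // l ≠ i} O)
      (C ϖ') := fun i => h.map (C : O →+* MvPolynomial {l : Fin (n + 1) // l ≠ i} O)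
  intro i
  refine ⟨?_, fun 𝔮 h𝔮 hC𝔮 hs hq => (hf i).2 𝔮 h𝔮 ?_ hs hq⟩
  · have h1 := (hf i).1
    unfold FinJac at h1 ⊢
    rwa [← m2_span_assoc (hC i)]
  · exact (𝔮.mem_iff_of_associated (hC i)).mpr hC𝔮

/-- Derivatives of elements of the square. -/
theorem m2_deriv {A P : Type} [CommRing A] [CommRing P] [Algebra A P]
    (d : Derivation A P P) (Q : Ideal P) {x : P} (hx : x ∈ Q ^ 2) : d x ∈ Q := by
  rw [pow_two] at hx
  induction hx using Submodule.mul_induction_on' with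
  | mem_mul_mem a ha b hb =>
    rw [Derivation.leibniz, smul_eq_mul, smul_eq_mul]
    exact Q.add_mem (Q.mul_mem_right _ ha) (Q.mul_mem_right _ hb)
  | add a _ b _ ha hb =>
    rw [map_add]
    exact Q.add_mem ha hb

theorem m2_jac_le {O : Type} [CommRing O] {σ : Type} {F s : MvPolynomial σ O}
    {𝔮 : Ideal (MvPolynomial σ O)} [𝔮.IsPrime] (hF : F ∈ 𝔮) (hs : s ∉ 𝔮)
    (h : s * F ∈ 𝔮 ^ 2) : ∀ l, pderiv l F ∈ 𝔮 := by
  intro l
  have h1 : pderiv l (s * F) ∈ 𝔮 := m2_deriv (pderiv l) 𝔮 h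
  rw [Derivation.leibniz, smul_eq_mul, smul_eq_mul] at h1
  have h2 : s * pderiv l F ∈ 𝔮 := by
    have h3 := 𝔮.sub_mem h1 (𝔮.mul_mem_right (pderiv l s) hF)
    rwa [add_sub_cancel_right] at h3
  exact (‹𝔮.IsPrime›.mem_or_mem h2).resolve_left hs

theorem m2_finite_above {B : Type} [CommRing B] (J : Ideal B) (h : Finite (B ⧸ J)) :
    {𝔮 : Ideal B | J ≤ 𝔮}.Finite := by
  have h1 : Finite (Ideal (B ⧸ J)) :=
    Finite.of_injective (fun I : Ideal (B ⧸ J) => (I : Set (B ⧸ J))) SetLike.coe_injective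
  refine (Set.finite_range fun I : Ideal (B ⧸ J) => I.comap (Ideal.Quotient.mk J)).subset ?_
  intro 𝔮 h𝔮
  refine ⟨𝔮.map (Ideal.Quotient.mk J), ?_⟩
  change Ideal.comap _ (Ideal.map _ _) = _
  rw [Ideal.comap_map_of_surjective _ Ideal.Quotient.mk_surjective, ← RingHom.ker_eq_comap_bot,
    Ideal.mk_ker]
  exact sup_eq_left.mpr h𝔮

/-- A prime with finite quotient is maximal. -/
theorem m2_maximal {B : Type} [CommRing B] (J : Ideal B) (h : Finite (B ⧸ J)) {𝔮 : Ideal B}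
    (hp : 𝔮.IsPrime) (hJ : J ≤ 𝔮) : 𝔮.IsMaximal := by
  have h1 : Finite (B ⧸ 𝔮) := Finite.of_surjective _ (Ideal.Quotient.factor_surjective hJ)
  exact Ideal.Quotient.maximal_of_isField _ (Finite.isField_of_domain _)

theorem m2_mem_sq {B : Type} [CommRing B] {𝔮 : Ideal B} (hm : 𝔮.IsMaximal) {s F : B}
    (hF : F ∈ 𝔮) (hs : s ∉ 𝔮) (h : s * F ∈ 𝔮 ^ 2) : F ∈ 𝔮 ^ 2 := by
  obtain ⟨a, b, hb, hab⟩ := hm.exists_inv hs
  have h1 : F = a * (s * F) + b * F := by
    calc F = (a * s + b) * F := by rw [hab, one_mul]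
      _ = _ := by ring
  rw [h1]
  refine Ideal.add_mem _ (Ideal.mul_mem_left _ _ h) ?_
  rw [pow_two]
  exact Ideal.mul_mem_mul hb hF

/-- The singular points of the total space on the special fibre. -/
def m2_sing {O : Type} [CommRing O] {n : ℕ} (ϖ : O) (f : MvPolynomial (Fin (n + 1)) O) :
    Set (Σ i : Fin (n + 1), Ideal (MvPolynomial {l : Fin (n + 1) // l ≠ i} O)) :=
  {z | z.2.IsMaximal ∧ C ϖ ∈ z.2 ∧ (∀ (l : Fin (n + 1)) (hl : l < z.1), X ⟨l, hl.ne⟩ ∈ z.2) ∧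
    dehom z.1 f ∈ z.2 ^ 2}

theorem m2_finite_sing {O : Type} [CommRing O] {n : ℕ} {ϖ : O}
    {f : MvPolynomial (Fin (n + 1)) O} (hf : OdpForm ϖ f) : (m2_sing ϖ f).Finite := by
  have h1 : (⋃ i : Fin (n + 1), (Sigma.mk i) '' {𝔮 : Ideal (MvPolynomial
      {l : Fin (n + 1) // l ≠ i} O) | Ideal.span (insert (C ϖ)
        (Set.range fun l => pderiv l (dehom i f))) ≤ 𝔮}).Finite :=
    Set.finite_iUnion fun i => (m2_finite_above _ (hf i).1).image _
  refine h1.subset ?_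
  rintro ⟨i, 𝔮⟩ ⟨hmax, hC, -, hsq⟩
  refine Set.mem_iUnion.mpr ⟨i, 𝔮, ?_, rfl⟩
  change Ideal.span _ ≤ 𝔮
  rw [Ideal.span_le]
  rintro _ (rfl | ⟨l, rfl⟩)
  · exact hC
  · exact m2_deriv (pderiv l) 𝔮 hsq

/-- The hypotheses of `mainO` for the centre. -/
theorem m2_hsing {O : Type} [CommRing O] [IsDomain O] [IsDiscreteValuationRing O] {n : ℕ} {ϖ : O}
    {f : MvPolynomial (Fin (n + 1)) O} (hf : OdpForm ϖ f)
    {G : Finset (MvPolynomial (Fin (n + 1)) O)}
    (hG : ∀ (i : Fin (n + 1)) (𝔮 : Ideal (MvPolynomial {l : Fin (n + 1) // l ≠ i} O)), 𝔮.IsPrime →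
        C ϖ ∈ 𝔮 → (∀ (l : Fin (n + 1)) (hl : l < i), X ⟨l, hl.ne⟩ ∈ 𝔮) →
        ((⟨i, 𝔮⟩ ∈ m2_sing ϖ f ∧ (∀ g ∈ G, dehom i g ∈ 𝔮) ∧ ∀ z ∈ 𝔮, ∃ s, s ∉ 𝔮 ∧
            s * z ∈ Ideal.span (insert (C ϖ) {w | ∃ g ∈ G, w = dehom i g})) ∨
          (⟨i, 𝔮⟩ ∉ m2_sing ϖ f ∧ ∃ g ∈ G, dehom i g ∉ 𝔮)))
    {r : ℕ} (hr : ∀ i, ∃ (c₀ : MvPolynomial {l : Fin (n + 1) // l ≠ i} O)
      (c : {l : Fin (n + 1) // l ≠ i} → MvPolynomial {l : Fin (n + 1) // l ≠ i} O),
      C ϖ ^ r = c₀ * dehom i f + ∑ l, c l * pderiv l (dehom i f))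
    (i : Fin (n + 1)) (𝔮 : Ideal (MvPolynomial {l : Fin (n + 1) // l ≠ i} O))
    (h𝔮 : 𝔮.IsPrime) (hfq : dehom i f ∈ 𝔮)
    (hs : ∀ (l : Fin (n + 1)) (hl : l < i), X ⟨l, hl.ne⟩ ∈ 𝔮) :
      ((C ϖ ∉ 𝔮 ∨ ∃ g ∈ G, dehom i g ∉ 𝔮) ∧ ∀ s, s ∉ 𝔮 → s * dehom i f ∉ 𝔮 ^ 2) ∨
      (C ϖ ∈ 𝔮 ∧ 𝔮.IsMaximal ∧ (∀ g ∈ G, dehom i g ∈ 𝔮) ∧
        (∀ z ∈ 𝔮, ∃ s, s ∉ 𝔮 ∧
          s * z ∈ Ideal.span (insert (C ϖ) {w | ∃ g ∈ G, w = dehom i g})) ∧
        OdpAt (dehom i f) 𝔮) := by
  by_cases hC : C ϖ ∈ 𝔮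
  · rcases hG i 𝔮 h𝔮 hC hs with ⟨⟨hmax, -, -, hsq⟩, h1, h2⟩ | ⟨hn, hg⟩
    · exact Or.inr ⟨hC, hmax, h1, h2, (hf i).2 𝔮 hmax hC hs hsq⟩
    · refine Or.inl ⟨Or.inr hg, fun s hsn hsf => hn ?_⟩
      have h1 := m2_jac_le (s := s) hfq hsn hsf
      have h2 : Ideal.span (insert (C ϖ) (Set.range fun l => pderiv l (dehom i f))) ≤ 𝔮 := by
        rw [Ideal.span_le]
        rintro _ (rfl | ⟨l, rfl⟩)
        · exact hC
        · exact h1 l
      have h3 := m2_maximal _ (hf i).1 h𝔮 h2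
      exact ⟨h3, hC, hs, m2_mem_sq h3 hfq hsn hsf⟩
  · refine Or.inl ⟨Or.inl hC, fun s hsn hsf => hC ?_⟩
    obtain ⟨c₀, c, hc⟩ := hr i
    have h0 : ∀ l, pderiv l (dehom i f) ∈ 𝔮 := by
      intro l
      have h1 : pderiv l (s * dehom i f) ∈ 𝔮 := m2_deriv (pderiv l) 𝔮 hsf
      rw [Derivation.leibniz, smul_eq_mul, smul_eq_mul] at h1
      have h2 : s * pderiv l (dehom i f) ∈ 𝔮 := by
        have h3 := 𝔮.sub_mem h1 (𝔮.mul_mem_right (pderiv l s) hfq)
        rwa [add_sub_cancel_right] at h3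
      exact (h𝔮.mem_or_mem h2).resolve_left hsn
    apply h𝔮.mem_of_pow_mem r
    rw [hc]
    exact 𝔮.add_mem (𝔮.mul_mem_left _ hfq)
      (𝔮.sum_mem fun l _ => 𝔮.mul_mem_left _ (h0 l))

end Aux

section

variable {R K A : Type} [CommRing R] [IsDedekindDomain R] [Field K] [Algebra R K]
  [IsFractionRing R K] [CommRing A] [IsDomain A] [Algebra K A] [Algebra R A]
  [IsScalarTower R K A] {𝒜 : ℕ → Submodule K A} [GradedAlgebra 𝒜] {n : ℕ}
  (π : MvPolynomial (Fin (n + 1)) K →ₐ[K] A) {f : MvPolynomial (Fin (n + 1)) R} {d : ℕ}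
  (hdeg : ∀ q e, q.IsHomogeneous e → π q ∈ 𝒜 e) (hf : f.IsHomogeneous d)
  (hzero : π (map (algebraMap R K) f) = 0) (hkerK : ∀ g, π g = 0 → map (algebraMap R K) f ∣ g)
  (hgen : Algebra.adjoin K (Set.range fun k => π (X k)) = ⊤)

include hf in
/-- The Jacobian condition over the local ring. -/
theorem m2_hr {m : R} {N : ℕ}
    (hmN : ∀ i, C m * X i ^ N ∈ Ideal.span (insert f (Set.range fun l => pderiv l f)))
    (P : HeightOneSpectrum R) {ϖ u : locRing K P} {r : ℕ}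
    (hu : u * algebraMap R (locRing K P) m = ϖ ^ r) (i : Fin (n + 1)) :
    ∃ (c₀ : MvPolynomial {l : Fin (n + 1) // l ≠ i} (locRing K P))
      (c : {l : Fin (n + 1) // l ≠ i} → MvPolynomial {l : Fin (n + 1) // l ≠ i} (locRing K P)),
      C ϖ ^ r = c₀ * dehom i (map (algebraMap R (locRing K P)) f) +
        ∑ l, c l * pderiv l (dehom i (map (algebraMap R (locRing K P)) f)) := by
  have h1 := Ideal.mem_map_of_mem (map (algebraMap R (locRing K P))) (hmN i)
  rw [Ideal.map_span, Set.image_insert_eq, ← Set.range_comp, map_mul, map_C, map_pow,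
    map_X] at h1
  have h2 : ((map (algebraMap R (locRing K P))) ∘ fun l => pderiv l f) =
      fun l => pderiv l (map (algebraMap R (locRing K P)) f) := by
    funext l
    exact (pderiv_map (φ := algebraMap R (locRing K P)) (f := f) (i := l)).symm
  rw [h2] at h1
  obtain ⟨c₀, c, hc⟩ := jac_dehom i (hf.map _) h1
  refine ⟨C u * c₀, fun l => C u * c l, ?_⟩
  rw [← map_pow, ← hu, C_mul, hc, mul_add, Finset.mul_sum]
  congr 1
  · ring
  · exact Finset.sum_congr rfl fun l _ => by ring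

include hdeg hf hzero hkerK in
/-- The local order at one prime. -/
theorem m2_local (hd : 2 ≤ d) {m : R} (hm : m ≠ 0) {N : ℕ}
    (hmN : ∀ i, C m * X i ^ N ∈ Ideal.span (insert f (Set.range fun l => pderiv l f)))
    (P : HeightOneSpectrum R) {ϖ : R} (hϖ : Irreducible (algebraMap R (locRing K P) ϖ))
    (hsing : m ∈ P.asIdeal →
      ((2 : R) ∉ P.asIdeal ∧ ∀ (ϖ : locRing K P), Irreducible ϖ → ∀ i,
        NondegAt ϖ (dehom i (map (algebraMap R (locRing K P)) f))) ∨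
      (Finite (R ⧸ P.asIdeal) ∧ ∃ ϖ : locRing K P, Irreducible ϖ ∧
        OdpForm ϖ (map (algebraMap R (locRing K P)) f))) :
    ∃ (B : ℕ → Set A) (r : ℕ), (∀ j, (B j).Finite) ∧ (m ∉ P.asIdeal → r = 0) ∧
      (∀ w ∈ DNF.WSet (fun k => π (X k)) B r ∪
          DNF.W1Set (fun k => π (X k)) (algebraMap R A ϖ) r, ∃ i, 0 < i ∧ w ∈ 𝒜 i) ∧
      RegAt 𝒜 (locSub P.asIdeal (Algebra.adjoin R (DNF.WSet (fun k => π (X k)) B r ∪
        DNF.W1Set (fun k => π (X k)) (algebraMap R A ϖ) r))) := by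
  classical
  obtain ⟨rr, u, hu1, hu2, hr0⟩ := exists_exponent P hm hϖ
  have hH : HypData 𝒜 (piS π (locRing K P)) (map (algebraMap R (locRing K P)) f) d :=
    hypData_piS π hdeg hf hzero hkerK (locRing K P)
  have hoA : oA K A (locRing K P) (algebraMap R (locRing K P) ϖ) = algebraMap R A ϖ :=
    oA_algebraMap (K := K) (O := locRing K P) ϖ
  have hxP : (fun k => piS π (locRing K P) (X k)) = fun k => π (X k) :=
    funext fun k => piS_X π _ k
  let F := FractionRing A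
  let ι : A →+* F := algebraMap A F
  have hι : Function.Injective ι := IsFractionRing.injective A F
  -- the case of a centre
  by_cases hodp : m ∈ P.asIdeal ∧ Finite (R ⧸ P.asIdeal) ∧ ∃ ϖ : locRing K P, Irreducible ϖ ∧
        OdpForm ϖ (map (algebraMap R (locRing K P)) f)
  · obtain ⟨hmP, hfinR, ϖ', hϖ', hodp⟩ := hodp
    have hodp' : OdpForm (algebraMap R (locRing K P) ϖ) (map (algebraMap R (locRing K P)) f) :=
      m2_odpForm_assoc (IsDiscreteValuationRing.associated_of_irreducible _ hϖ' hϖ) hodp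
    have hfin : Finite (locRing K P ⧸ Ideal.span {algebraMap R (locRing K P) ϖ}) := by
      have h1 := finite_residue_locRing (K := K) P
      rw [← hϖ.maximalIdeal_eq]
      exact h1
    obtain ⟨δ, G, hδ, hG, hcen⟩ := exists_centre hϖ _ (m2_finite_sing hodp')
      fun z hz => ⟨hz.1, hz.2.1, hz.2.2.1⟩
    have hO := orderHypO P.asIdeal hH (fun c => piS_C π _ c) hδ hG
      (algebraMap R (locRing K P) ϖ) 1 (R := R)
    rw [hxP, hoA] at hO
    refine ⟨oset (piS π (locRing K P)) δ G (algebraMap R A ϖ), 1,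
      fun j => finite_oset _ _ _ _ _, fun hmn => absurd hmP hmn, ?_, ?_⟩
    · intro w hw
      rcases hw with hw | ⟨i, rfl⟩
      · exact ⟨_, Nat.succ_pos _, hO.W_deg hw⟩
      · refine ⟨1, one_pos, ?_⟩
        have := SetLike.mul_mem_graded hO.theta_deg (hO.xdeg i)
        simpa using this
    · intro hS y hy hyh hirr
      apply isRegularLocalRing_of_homLoc 𝒜 ι _ y hι hS
      refine mainO (R := R) (FaithfulSMul.algebraMap_injective _ K) P.asIdeal hH
        (fun c => piS_C π _ c) hδ hG ι hι hϖ hfin ?_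
        (m2_hsing hodp' hcen (m2_hr hf hmN P hu2)) y hy ?_
      · rw [hxP, hoA]
      · by_contra hcon
        push Not at hcon
        apply hirr
        rw [HomogeneousIdeal.toIdeal_irrelevant_le]
        intro i hi s hs
        exact hcon i hi s hs
  · have hsets : (DNF.WSet (fun k => piS π (locRing K P) (X k)) (bset (piS π (locRing K P))
          (map (algebraMap R (locRing K P)) f) d (oA K A (locRing K P)
            (algebraMap R (locRing K P) ϖ))) rr ∪
          DNF.W1Set (fun k => piS π (locRing K P) (X k)) (oA K A (locRing K P)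
            (algebraMap R (locRing K P) ϖ)) rr) =
        (DNF.WSet (fun k => π (X k)) (bset (piS π R) f d (algebraMap R A ϖ)) rr ∪
          DNF.W1Set (fun k => π (X k)) (algebraMap R A ϖ) rr) := by
      rw [hxP, hoA, bset_piS]
    have hO := hH.orderHyp (R := R) P.asIdeal
      (fun c => piS_C π _ c) hd (algebraMap R (locRing K P) ϖ) rr
    refine ⟨bset (piS π R) f d (algebraMap R A ϖ), rr, fun j => finite_bset _ f d _ j, hr0, ?_, ?_⟩
    · intro w hw
      rw [← hsets] at hw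
      rcases hw with hw | ⟨i, rfl⟩
      · exact ⟨_, Nat.succ_pos _, hO.W_deg hw⟩
      · refine ⟨1, one_pos, ?_⟩
        have := SetLike.mul_mem_graded hO.theta_deg (hO.xdeg i)
        simpa using this
    · intro hS y hy hyh hirr
      apply isRegularLocalRing_of_homLoc 𝒜 ι _ y hι hS
      refine hH.main (R := R) (FaithfulSMul.algebraMap_injective _ K) P.asIdeal
        (fun c => piS_C π _ c) hd ι hι hϖ rr (by rw [hsets]) ?_ (m2_hr hf hmN P hu2) y hy ?_
      · by_cases hp : m ∈ P.asIdeal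
        · right
          rcases hsing hp with ⟨h2, hnd⟩ | h2
          · refine ⟨?_, hnd _ hϖ⟩
            have h3 := IsLocalization.map_units (locRing K P) (⟨2, h2⟩ : P.asIdeal.primeCompl)
            change IsUnit (algebraMap R (locRing K P) 2) at h3
            rwa [map_ofNat] at h3
          · exact absurd ⟨hp, h2.1, h2.2⟩ hodp
        · exact Or.inl (hr0 hp)
      · by_contra hcon
        push Not at hcon
        apply hirr
        rw [HomogeneousIdeal.toIdeal_irrelevant_le]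
        intro i hi s hs
        exact hcon i hi s hs

include hdeg hf hzero hkerK hgen in
theorem exists_model_hypO (hRf : ¬ IsField R) (hd : 2 ≤ d) {m : R} (hm : m ≠ 0) {N : ℕ}
    (hmN : ∀ i, C m * X i ^ N ∈ Ideal.span (insert f (Set.range fun l => pderiv l f)))
    (hsing : ∀ P : HeightOneSpectrum R, m ∈ P.asIdeal →
      ((2 : R) ∉ P.asIdeal ∧ ∀ (ϖ : locRing K P), Irreducible ϖ → ∀ i,
        NondegAt ϖ (dehom i (map (algebraMap R (locRing K P)) f))) ∨
      (Finite (R ⧸ P.asIdeal) ∧ ∃ ϖ : locRing K P, Irreducible ϖ ∧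
        OdpForm ϖ (map (algebraMap R (locRing K P)) f))) :
    ∃ (Y : Scheme.{0}) (g : Y ⟶ Spec (CommRingCat.of R)),
      IsProper g ∧ Flat g ∧ (∀ y : Y, IsRegularLocalRing (Y.presheaf.stalk y)) ∧
      ∃ e : pullback g (Spec.map (CommRingCat.ofHom (algebraMap R K))) ≅ Proj 𝒜,
        e.hom ≫ projTo K 𝒜 =
          pullback.snd g (Spec.map (CommRingCat.ofHom (algebraMap R K))) := by
  classical
  choose ϖ hϖ using fun P : HeightOneSpectrum R => exists_unif (K := K) P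
  have hϖ0 : ∀ P, ϖ P ≠ 0 := fun P h0 => (hϖ P).ne_zero (by rw [h0, map_zero])
  choose B rr hB hr0 hhom hreg using fun P : HeightOneSpectrum R =>
    m2_local π hdeg hf hzero hkerK hd hm hmN P (hϖ P) (hsing P)
  have hLG : LocalGens (R := R) 𝒜 (fun P => DNF.WSet (fun k => π (X k)) (B P) (rr P) ∪
        DNF.W1Set (fun k => π (X k)) (algebraMap R A (ϖ P)) (rr P))
        (Set.range fun k => π (X k)) :=
    { finite := fun P => (DNF.finite_WSet (hB P) _).union (DNF.finite_W1Set _)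
      finite₀ := Set.finite_range _
      ae := by
        refine (finite_mem_prime hm).subset ?_
        intro P hP
        by_contra hdp
        apply hP
        have h1 : rr P = 0 := hr0 P hdp
        change DNF.WSet (fun k => π (X k)) (B P) (rr P) ∪
          DNF.W1Set (fun k => π (X k)) (algebraMap R A (ϖ P)) (rr P) = _
        rw [h1, DNF.WSet_zero, DNF.W1Set_zero, Set.union_self]
      homog := fun P w hw => hhom P w hw
      full := fun P a => full_order π hgen (hϖ0 P) (rr P) a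
      full₀ := fun a => by
        have := full_order π hgen (B := fun _ => ∅) (one_ne_zero (α := R)) 0 a
        rwa [DNF.WSet_zero, DNF.W1Set_zero, Set.union_self] at this }
  have hnt : Nontrivial A := inferInstance
  exact Pool.Agent.Lib.MP_6a3dac_ag.exists_model 𝒜 hLG hRf fun P => hreg P

end

end Pool.Agent.Lib.MP_6a3dac_ag.Maj
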