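import Pool.Agent.Lib.MP_6a3dac_ag.Maj.Main
import Pool.Agent.Lib.MP_6a3dac_ag.Sys.Exact

/-!
# Hypersurfaces of all degrees with regular models
-/

set_option autoImplicit false

namespace Pool.Agent.Lib.MP_6a3dac_ag.Maj

open MvPolynomial NumberField AlgebraicGeometry Filter Topology
open Pool.Agent.Lib.MP_6a3dac_ag.DNF

/-- The lower density of the hypersurfaces of degree `d` in `ℙⁿ` over `E` which are smooth and have
a regular proper flat model over the ring of integers. -/
noncomputable def lowerDensity {E : Type} [Field E] [NumberField E] {s : ℕ}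
    (b : Module.Basis (Fin s) ℤ (𝓞 E)) (n d : ℕ) : ℝ :=
  liminf (fun H : ℕ => proportion b (fun a : Mono n d → 𝓞 E => HasModel a) H) atTop

theorem proportion_nonneg {ι B : Type} [Fintype ι] [DecidableEq ι] [CommRing B] {s : ℕ}
    (b : Module.Basis (Fin s) ℤ B) (S : (ι → B) → Prop) (H : ℕ) : 0 ≤ proportion b S H := by
  rw [proportion]
  positivity

theorem proportion_le_one {ι B : Type} [Fintype ι] [DecidableEq ι] [CommRing B] {s : ℕ}
    (b : Module.Basis (Fin s) ℤ B) (S : (ι → B) → Prop) (H : ℕ) : proportion b S H ≤ 1 := by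
  classical
  rw [proportion]
  exact div_le_one_of_le₀ (by exact_mod_cast Finset.card_filter_le _ _) (Nat.cast_nonneg _)

theorem proportion_mono {ι B : Type} [Fintype ι] [DecidableEq ι] [CommRing B] {s : ℕ}
    (b : Module.Basis (Fin s) ℤ B) {S S' : (ι → B) → Prop} (h : ∀ a, S a → S' a) (H : ℕ) :
    proportion b S H ≤ proportion b S' H := by
  classical
  rw [proportion, proportion]
  refine div_le_div_of_nonneg_right ?_ (Nat.cast_nonneg _)
  exact_mod_cast Finset.card_le_card (Finset.monotone_filter_right _ fun u _ hu => h _ hu)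

/-- The proportion does not depend on the names of the coordinates. -/
theorem proportion_equiv {ι ι' B : Type} [Fintype ι] [DecidableEq ι] [Fintype ι']
    [DecidableEq ι'] [CommRing B] {s : ℕ} (b : Module.Basis (Fin s) ℤ B) (σ : ι ≃ ι')
    (S : (ι' → B) → Prop) (H : ℕ) :
    proportion b (fun a : ι → B => S (a ∘ σ.symm)) H = proportion b S H := by
  classical
  rw [proportion, proportion]
  have h1 : ((box (ι × Fin s) H).filter
      fun u => S (DNF.coeffs b u ∘ σ.symm)).card =
      ((box (ι' × Fin s) H).filter fun u => S (DNF.coeffs b u)).card := by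
    refine Finset.card_equiv (Equiv.arrowCongr (σ.prodCongr (Equiv.refl (Fin s)))
      (Equiv.refl ℤ)) fun u => ?_
    have h2 : DNF.coeffs b ((Equiv.arrowCongr (σ.prodCongr (Equiv.refl (Fin s)))
        (Equiv.refl ℤ)) u) = DNF.coeffs b u ∘ σ.symm := by
      funext i
      rfl
    rw [Finset.mem_filter, Finset.mem_filter, h2]
    refine and_congr_left fun _ => ?_
    rw [box, box, Fintype.mem_piFinset, Fintype.mem_piFinset]
    constructor
    · intro h i
      exact h _
    · intro h i
      have h3 := h ((σ.prodCongr (Equiv.refl (Fin s))) i)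
      have h4 : (Equiv.arrowCongr (σ.prodCongr (Equiv.refl (Fin s))) (Equiv.refl ℤ)) u
          ((σ.prodCongr (Equiv.refl (Fin s))) i) = u i := by
        show u ((σ.prodCongr (Equiv.refl (Fin s))).symm
          ((σ.prodCongr (Equiv.refl (Fin s))) i)) = u i
        rw [Equiv.symm_apply_apply]
      rwa [h4] at h3
  have h2 : (box (ι × Fin s) H).card = (box (ι' × Fin s) H).card := by
    rw [box, box, Fintype.card_piFinset, Fintype.card_piFinset, Finset.prod_const,
      Finset.prod_const, Finset.card_univ, Finset.card_univ,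
      Fintype.card_congr (σ.prodCongr (Equiv.refl (Fin s)))]
  rw [h1, h2]

theorem homIdeal_ext {R : Type} [CommRing R] {n : ℕ} {I J : HomIdeal R n}
    (h : I.ideal = J.ideal) : I = J := by
  cases I
  cases J
  cases h
  rfl

theorem sIdeal_eq {n d : ℕ} {R : Type} [CommRing R] (a : Sys.Coef n (fun _ : Fin 1 => d) → R) :
    Sys.sIdeal a = DNF.formIdeal (fun μ => a ⟨0, μ⟩) := by
  apply homIdeal_ext
  show Ideal.span (Set.range (Sys.sform a)) = Ideal.span {form fun μ => a ⟨0, μ⟩}
  congr 1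
  ext f
  constructor
  · rintro ⟨k, rfl⟩
    rw [Subsingleton.elim k 0]
    rfl
  · rintro rfl
    exact ⟨0, rfl⟩

/-- The coordinates of the systems of one form. -/
def oneEquiv (n d : ℕ) : Sys.Coef n (fun _ : Fin 1 => d) ≃ Mono n d where
  toFun μ := μ.2
  invFun μ := ⟨0, μ⟩
  left_inv μ := by
    obtain ⟨k, μ⟩ := μ
    obtain rfl : k = 0 := Subsingleton.elim _ _
    rfl
  right_inv μ := rfl

theorem hasModel_of_nodal {E : Type} [Field E] [NumberField E] {n d : ℕ} (hn : 2 ≤ n)
    (hd : 2 ≤ d) (a : Sys.Coef n (fun _ : Fin 1 => d) → 𝓞 E) (h : Sys.NodalAway a (1 : 𝓞 E)) :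
    HasModel (a ∘ (oneEquiv n d).symm) := by
  have h1 := h.hasModels le_rfl (by omega) (fun _ => hd)
  have h2 : Sys.sIdeal (fun μ => algebraMap (𝓞 E) E (a μ)) =
      DNF.formIdeal fun μ => algebraMap (𝓞 E) E ((a ∘ (oneEquiv n d).symm) μ) := sIdeal_eq _
  have h3 := h1.2 (𝓞 E) E (RingHom.id _) Function.injective_id
    (RingOfIntegers.not_isField E) (by simp)
  have h4 := h1.1
  rw [h2] at h4
  refine ⟨h4, ?_⟩
  simp only [RingHom.id_apply] at h3
  rw [h2] at h3
  exact h3

theorem lowerDensity_pos {E : Type} [Field E] [NumberField E] {s : ℕ}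
    (b : Module.Basis (Fin s) ℤ (𝓞 E)) {n d : ℕ} (hn : 2 ≤ n) (hd : 2 ≤ d) :
    0 < lowerDensity b n d := by
  classical
  obtain ⟨Δ, h1, _⟩ := Sys.ci_result E s b n 1 le_rfl (by omega) (fun _ : Fin 1 => d)
    (fun _ => hd)
  obtain ⟨_, h2, _, h3⟩ := h1 1
  have h4 : 0 < Δ 1 := h3 (Or.inl rfl)
  have h5 : ∀ᶠ H : ℕ in atTop, Δ 1 / 2 ≤ proportion b (fun a : Mono n d → 𝓞 E => HasModel a) H := by
    have h6 : ∀ᶠ H : ℕ in atTop, Δ 1 / 2 <
        proportion b (fun a : Sys.Coef n (fun _ : Fin 1 => d) → 𝓞 E => Sys.NodalAway a 1) H :=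
      h2.eventually (lt_mem_nhds (by linarith))
    filter_upwards [h6] with H hH
    refine hH.le.trans ?_
    rw [← proportion_equiv b (oneEquiv n d) (fun a : Mono n d → 𝓞 E => HasModel a) H]
    exact proportion_mono b (fun a ha => hasModel_of_nodal hn hd a ha) H
  have h7 : Δ 1 / 2 ≤ lowerDensity b n d := by
    rw [lowerDensity]
    refine le_liminf_of_le ?_ h5
    exact IsBoundedUnder.isCoboundedUnder_ge
      ⟨1, eventually_map.2 (Eventually.of_forall fun H => proportion_le_one b _ H)⟩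
  linarith

/-- **All degrees.** -/
theorem all_degrees (E : Type) [Field E] [NumberField E] (s : ℕ)
    (b : Module.Basis (Fin s) ℤ (𝓞 E)) (n : ℕ) (hn : 2 ≤ n) :
    (∀ d, 2 ≤ d → 0 < lowerDensity b n d) ∧
    (∀ ε : ℝ, 0 < ε → ∀ᶠ d : ℕ in atTop, tcC E - ε ≤ lowerDensity b n d) ∧
    (9 / 10 : ℝ) ^ Module.finrank ℚ E < tcC E := by
  refine ⟨fun d hd => lowerDensity_pos b hn hd, fun ε hε => ?_,
    (most_hypersurfaces E s b n hn).2.1⟩
  obtain ⟨d₀, hd₀⟩ := (most_hypersurfaces E s b n hn).2.2 ε hε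
  filter_upwards [eventually_ge_atTop d₀] with d hd
  rw [lowerDensity]
  refine le_liminf_of_le ?_ (hd₀ d hd)
  exact IsBoundedUnder.isCoboundedUnder_ge
    ⟨1, eventually_map.2 (Eventually.of_forall fun H => proportion_le_one b _ H)⟩

end Pool.Agent.Lib.MP_6a3dac_ag.Maj
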