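import Pool.Agent.Lib.MP_6a3dac_ag.Mg.G034
import Pool.Agent.Lib.MP_6a3dac_ag.Mg.G038

/-!
# A criterion for the existence of regular models of hypersurfaces
-/

set_option autoImplicit false

namespace Pool.Agent.Lib.MP_6a3dac_ag.Maj

open MvPolynomial NumberField IsDedekindDomain AlgebraicGeometry IsLocalRing
open Pool.Agent.Lib.MP_6a3dac_ag.DNF Pool.Agent.Lib.MP_6a3dac_ag.Sys

/-- The form has no singular zeros `x ≠ 0` with coordinates in a field containing `E`. -/
def NoSingular (E : Type) [Field E] [NumberField E] {n d : ℕ} (a : Mono n d → 𝓞 E) : Prop :=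
  ∀ (L : Type) [Field L] [Algebra E L] (x : Fin (n + 1) → L), x ≠ 0 →
    eval x (form fun μ => algebraMap E L (a μ)) = 0 →
      ∃ l, eval x (pderiv l (form fun μ => algebraMap E L (a μ))) ≠ 0

theorem NoSingular.jac {E : Type} [Field E] [NumberField E] {n d : ℕ} {a : Mono n d → 𝓞 E}
    (h : NoSingular E a) :
    ∃ (m : 𝓞 E) (N : ℕ), m ≠ 0 ∧ ∀ i, C m * X i ^ N ∈ Ideal.span (insert (form a)
      (Set.range fun l => pderiv l (form a))) := by
  obtain ⟨N, hN⟩ := jac_of_noSing (k := E) (c := 1) (d := fun _ => d)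
    (f := fun _ => form fun μ => algebraMap (𝓞 E) E (a μ)) (fun _ => isHomogeneous_form _) (by
      intro L _ _ i j x y hx hy hs
      obtain rfl : j = 0 := Subsingleton.elim _ _
      obtain ⟨h0, h1⟩ := hs
      simp only [DNF.map_form] at h0 h1
      obtain ⟨l, hl⟩ := h L x (fun h2 => by
        rw [h2] at hx
        exact zero_ne_one hx) (h0 0)
      have h4 := h1 l
      rw [Fin.sum_univ_one, hy, one_mul] at h4
      exact hl h4)
  have h1 : (fun _ : Fin 1 => form fun μ => algebraMap (𝓞 E) E (a μ)) =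
      fun k : Fin 1 => map (algebraMap (𝓞 E) E) ((fun _ : Fin 1 => form a) k) := by
    funext k
    exact (DNF.map_form _ _).symm
  rw [h1] at hN
  obtain ⟨m, hm, hmN⟩ := spread_generic hN
  refine ⟨m, N, hm, fun i => ?_⟩
  refine Ideal.span_mono ?_ (hmN i)
  rintro z (⟨k, rfl⟩ | ⟨s, rfl⟩)
  · exact Set.mem_insert _ _
  · refine Set.mem_insert_of_mem _ ⟨s 0, ?_⟩
    rw [minor, Matrix.det_unique]
    rfl

section Equiv

variable {ι κ κ' : Type} [Fintype ι] [CommRing κ] [CommRing κ'] (e : κ ≃+* κ') {c : ι → ι → κ}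

theorem crit_qf (v : ι → κ) : qf (fun j k => e (c j k)) (fun j => e (v j)) = e (qf c v) := by
  simp only [qf, map_sum, map_mul]

theorem crit_qd (v : ι → κ) (k : ι) :
    qd (fun j k => e (c j k)) (fun j => e (v j)) k = e (qd c v k) := by
  simp only [qd, map_sum, map_mul, map_add]

theorem QNondeg.equiv (h : QNondeg c) : QNondeg fun j k => e (c j k) := by
  intro v hv h0
  obtain ⟨w, rfl⟩ : ∃ w : ι → κ, v = fun j => e (w j) := ⟨fun j => e.symm (v j), by simp⟩
  rw [crit_qf, map_eq_zero_iff e e.injective] at h0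
  obtain ⟨k, hk⟩ := h w (by
    rintro rfl
    apply hv
    funext j
    simp) h0
  refine ⟨k, ?_⟩
  rw [crit_qd]
  exact (map_ne_zero_iff e e.injective).mpr hk

theorem LineKer.equiv {v : ι → κ} (h : LineKer c v) :
    LineKer (fun j k => e (c j k)) fun j => e (v j) := by
  refine ⟨fun h0 => h.1 ?_, fun w' => ?_⟩
  · funext j
    have := congrFun h0 j
    rwa [Pi.zero_apply, map_eq_zero_iff e e.injective] at this
  · obtain ⟨w, rfl⟩ : ∃ w : ι → κ, w' = fun j => e (w j) := ⟨fun j => e.symm (w' j), by simp⟩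
    have h1 := h.2 w
    rw [crit_qf, map_eq_zero_iff e e.injective]
    have h2 : (∀ k, qd (fun j k => e (c j k)) (fun j => e (w j)) k = 0) ↔ ∀ k, qd c w k = 0 :=
      forall_congr' fun k => by rw [crit_qd, map_eq_zero_iff e e.injective]
    rw [h2, h1]
    constructor
    · rintro ⟨t, rfl⟩
      exact ⟨e t, by simp⟩
    · rintro ⟨t, ht⟩
      refine ⟨e.symm t, ?_⟩
      funext j
      have := congrFun ht j
      apply e.injective
      simpa using this

end Equiv

section Loc

variable {R K : Type} [CommRing R] [IsDedekindDomain R] [Field K] [Algebra R K]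
  [IsFractionRing R K] {σ : Type} (P : HeightOneSpectrum R) {ϖ : locRing K P}
  (hϖ : Irreducible ϖ)

theorem crit_inj : Function.Injective (algebraMap R (locRing K P)) := by
  have h1 : Function.Injective (algebraMap R K) := IsFractionRing.injective R K
  intro x y hxy
  apply h1
  rw [IsScalarTower.algebraMap_apply R (locRing K P) K, hxy,
    ← IsScalarTower.algebraMap_apply R (locRing K P) K]

include hϖ in
theorem crit_lift (c : locRing K P) : ∃ r : R, c - algebraMap R (locRing K P) r ∈
    Ideal.span {ϖ} := by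
  rw [← hϖ.maximalIdeal_eq]
  obtain ⟨r, hr⟩ := (IsLocalization.AtPrime.equivQuotMaximalIdeal P.asIdeal
    (locRing K P)).surjective (Ideal.Quotient.mk _ c)
  obtain ⟨r, rfl⟩ := Ideal.Quotient.mk_surjective r
  rw [IsLocalization.AtPrime.equivQuotMaximalIdeal_apply_mk] at hr
  exact ⟨r, Ideal.Quotient.eq.mp hr.symm⟩

include hϖ in
theorem crit_ex {J : Ideal (MvPolynomial σ (locRing K P))} (hJ : C ϖ ∈ J)
    (z : MvPolynomial σ (locRing K P)) :
    ∃ w : MvPolynomial σ R, z - map (algebraMap R (locRing K P)) w ∈ J := by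
  induction z using MvPolynomial.induction_on with
  | C c =>
    obtain ⟨r, hr⟩ := crit_lift P hϖ c
    refine ⟨C r, ?_⟩
    obtain ⟨t, ht⟩ := Ideal.mem_span_singleton'.mp hr
    rw [map_C, ← C_sub, ← ht, C_mul]
    exact J.mul_mem_left _ hJ
  | add a b ha hb =>
    obtain ⟨a', ha⟩ := ha
    obtain ⟨b', hb⟩ := hb
    refine ⟨a' + b', ?_⟩
    rw [map_add]
    have := J.add_mem ha hb
    convert this using 1
    ring
  | mul_X a l ha =>
    obtain ⟨a', ha⟩ := ha
    refine ⟨a' * X l, ?_⟩
    rw [map_mul, map_X, ← sub_mul]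
    exact J.mul_mem_right _ ha

include hϖ in
/-- A closed point over `P` comes from a maximal ideal of the polynomial ring over `R`. -/
theorem crit_max {𝔮' : Ideal (MvPolynomial σ (locRing K P))} (hmax : 𝔮'.IsMaximal)
    (hC : C ϖ ∈ 𝔮') : (𝔮'.comap (map (algebraMap R (locRing K P)))).IsMaximal := by
  have h1 : Function.Surjective ((Ideal.Quotient.mk 𝔮').comp
      (map (algebraMap R (locRing K P)))) := by
    intro z
    obtain ⟨z, rfl⟩ := Ideal.Quotient.mk_surjective z
    obtain ⟨w, hw⟩ := crit_ex P hϖ hC z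
    exact ⟨w, (Ideal.Quotient.eq.mpr hw).symm⟩
  have h2 : (𝔮'.comap (map (algebraMap R (locRing K P)))) =
      RingHom.ker ((Ideal.Quotient.mk 𝔮').comp (map (algebraMap R (locRing K P)))) := by
    rw [RingHom.ker_eq_comap_bot, ← Ideal.comap_comap, ← RingHom.ker_eq_comap_bot, Ideal.mk_ker]
  have h3 : IsField (MvPolynomial σ (locRing K P) ⧸ 𝔮') :=
    (Ideal.Quotient.maximal_ideal_iff_isField_quotient _).mp hmax
  rw [h2]
  let _ := h3.toField
  exact RingHom.ker_isMaximal_of_surjective _ h1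

theorem crit_map_comap (𝔮' : Ideal (MvPolynomial σ (locRing K P))) :
    (𝔮'.comap (map (algebraMap R (locRing K P)))).map (map (algebraMap R (locRing K P))) = 𝔮' := by
  let _ : Algebra (MvPolynomial σ R) (MvPolynomial σ (locRing K P)) :=
    (map (algebraMap R (locRing K P))).toAlgebra
  have h1 : IsLocalization (P.asIdeal.primeCompl.map (C (σ := σ)))
      (MvPolynomial σ (locRing K P)) := MvPolynomial.isLocalization _ _
  exact IsLocalization.map_under (P.asIdeal.primeCompl.map (C (σ := σ))) _ 𝔮'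

theorem crit_mem {𝔮 : Ideal (MvPolynomial σ R)} {F : MvPolynomial σ R}
    (h : map (algebraMap R (locRing K P)) F ∈ 𝔮.map (map (algebraMap R (locRing K P)))) :
    ∃ s : R, s ∉ P.asIdeal ∧ C s * F ∈ 𝔮 := by
  let _ : Algebra (MvPolynomial σ R) (MvPolynomial σ (locRing K P)) :=
    (map (algebraMap R (locRing K P))).toAlgebra
  have h1 : IsLocalization (P.asIdeal.primeCompl.map (C (σ := σ)))
      (MvPolynomial σ (locRing K P)) := MvPolynomial.isLocalization _ _
  obtain ⟨⟨⟨y, hy⟩, ⟨_, ⟨s, hs, rfl⟩⟩⟩, h2⟩ :=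
    (IsLocalization.mem_map_algebraMap_iff (P.asIdeal.primeCompl.map (C (σ := σ)))
      (MvPolynomial σ (locRing K P))).mp h
  refine ⟨s, hs, ?_⟩
  change map (algebraMap R (locRing K P)) F * map (algebraMap R (locRing K P)) (C s) =
    map (algebraMap R (locRing K P)) y at h2
  rw [← map_mul] at h2
  have h3 := MvPolynomial.map_injective _ (crit_inj (K := K) P) h2
  rw [mul_comm, h3]
  exact hy

variable [Fintype σ]

include hϖ in
theorem tcAt_loc {F : MvPolynomial σ R}
    (h : ∀ 𝔮 : Ideal (MvPolynomial σ R), 𝔮.IsMaximal → F ∈ 𝔮 ^ 2 → TcAt F 𝔮)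
    {𝔮' : Ideal (MvPolynomial σ (locRing K P))} (hmax : 𝔮'.IsMaximal) (hC : C ϖ ∈ 𝔮')
    (hF : map (algebraMap R (locRing K P)) F ∈ 𝔮' ^ 2) :
    TcAt (map (algebraMap R (locRing K P)) F) 𝔮' := by
  obtain ⟨𝔮, h𝔮⟩ : ∃ 𝔮, 𝔮 = 𝔮'.comap (map (algebraMap R (locRing K P))) := ⟨_, rfl⟩
  have hm : 𝔮.IsMaximal := by rw [h𝔮]; exact crit_max P hϖ hmax hC
  have hmap : 𝔮.map (map (algebraMap R (locRing K P))) = 𝔮' := by
    rw [h𝔮]; exact crit_map_comap P 𝔮'
  have hF2 : F ∈ 𝔮 ^ 2 := by
    rw [← hmap, ← Ideal.map_pow] at hF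
    obtain ⟨s, hs, hsF⟩ := crit_mem P hF
    have hsq : (C s : MvPolynomial σ R) ∉ 𝔮 := by
      intro h1
      rw [h𝔮, Ideal.mem_comap, map_C] at h1
      have h2 : IsUnit (algebraMap R (locRing K P) s) :=
        IsLocalization.map_units (locRing K P) (⟨s, hs⟩ : P.asIdeal.primeCompl)
      exact hmax.ne_top (Ideal.eq_top_of_isUnit_mem _ h1 (h2.map C))
    have hF1 : F ∈ 𝔮 :=
      (hm.isPrime.mem_or_mem (Ideal.pow_le_self two_ne_zero hsF)).resolve_left hsq
    exact m2_mem_sq hm hF1 hsq hsF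
  obtain ⟨g, c, hg, hFg, hc⟩ := h 𝔮 hm hF2
  refine ⟨fun o => map (algebraMap R (locRing K P)) (g o),
    fun j k => map (algebraMap R (locRing K P)) (c j k), ⟨fun o => ?_, ?_⟩, ?_, ?_⟩
  · have h1 := hg.1 o
    rw [h𝔮] at h1
    exact h1
  · have h1 := Ideal.map_mono (f := map (algebraMap R (locRing K P))) hg.2
    rw [Ideal.map_sup, Ideal.map_span, Ideal.map_pow, hmap, ← Set.range_comp] at h1
    exact h1
  · have h1 := Ideal.mem_map_of_mem (map (algebraMap R (locRing K P))) hFg
    rw [Ideal.map_pow, hmap] at h1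
    simpa only [map_sub, map_sum, map_mul] using h1
  · -- the residue fields
    have hle : 𝔮 ≤ 𝔮'.comap (map (algebraMap R (locRing K P))) := h𝔮.le
    let φ : MvPolynomial σ R ⧸ 𝔮 →+* MvPolynomial σ (locRing K P) ⧸ 𝔮' :=
      Ideal.quotientMap 𝔮' (map (algebraMap R (locRing K P))) hle
    have hφ : ∀ z, φ (Ideal.Quotient.mk 𝔮 z) =
        Ideal.Quotient.mk 𝔮' (map (algebraMap R (locRing K P)) z) := fun z => rfl
    have hbij : Function.Bijective φ := by
      refine ⟨?_, fun z => ?_⟩
      · let _ : Field (MvPolynomial σ R ⧸ 𝔮) := Ideal.Quotient.field 𝔮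
        have : Nontrivial (MvPolynomial σ (locRing K P) ⧸ 𝔮') :=
          Ideal.Quotient.nontrivial_iff.mpr hmax.ne_top
        exact φ.injective
      · obtain ⟨z, rfl⟩ := Ideal.Quotient.mk_surjective z
        obtain ⟨w, hw⟩ := crit_ex P hϖ hC z
        exact ⟨Ideal.Quotient.mk 𝔮 w, (Ideal.Quotient.eq.mpr hw).symm⟩
    let e := RingEquiv.ofBijective φ hbij
    have he : ∀ z, e (Ideal.Quotient.mk 𝔮 z) =
        Ideal.Quotient.mk 𝔮' (map (algebraMap R (locRing K P)) z) := fun z => rfl
    rcases hc with hc | ⟨v, hv⟩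
    · exact Or.inl (hc.equiv e)
    · exact Or.inr ⟨_, hv.equiv e⟩

omit [Fintype σ] in
include hϖ in
/-- The finiteness of the singular locus of the special fibre. -/
theorem finSing_loc {F : MvPolynomial σ R}
    (h : Finite (MvPolynomial σ (R ⧸ P.asIdeal) ⧸ Ideal.span (insert
      (map (Ideal.Quotient.mk P.asIdeal) F)
      (Set.range fun l => pderiv l (map (Ideal.Quotient.mk P.asIdeal) F))))) :
    FinSing ϖ (map (algebraMap R (locRing K P)) F) := by
  set J : Ideal (MvPolynomial σ (locRing K P)) := Ideal.span (insert (C ϖ)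
    (insert (map (algebraMap R (locRing K P)) F)
      (Set.range fun l => pderiv l (map (algebraMap R (locRing K P)) F)))) with hJ
  have hCJ : C ϖ ∈ J := Ideal.subset_span (Set.mem_insert _ _)
  -- the map from the coefficient field
  have h0 : ∀ r ∈ P.asIdeal, (Ideal.Quotient.mk J).comp (C.comp (algebraMap R (locRing K P))) r
      = 0 := by
    intro r hr
    change Ideal.Quotient.mk J (C (algebraMap R (locRing K P) r)) = 0
    rw [Ideal.Quotient.eq_zero_iff_mem]
    have h1 : algebraMap R (locRing K P) r ∈ Ideal.span {ϖ} := by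
      rw [← hϖ.maximalIdeal_eq, ← IsLocalization.AtPrime.map_eq_maximalIdeal P.asIdeal
        (locRing K P)]
      exact Ideal.mem_map_of_mem _ hr
    obtain ⟨t, ht⟩ := Ideal.mem_span_singleton'.mp h1
    rw [← ht, C_mul]
    exact J.mul_mem_left _ hCJ
  let θ₀ : R ⧸ P.asIdeal →+* MvPolynomial σ (locRing K P) ⧸ J := Ideal.Quotient.lift _ _ h0
  let θ : MvPolynomial σ (R ⧸ P.asIdeal) →+* MvPolynomial σ (locRing K P) ⧸ J :=
    eval₂Hom θ₀ fun l => Ideal.Quotient.mk J (X l)
  have hθ : ∀ w : MvPolynomial σ R, θ (map (Ideal.Quotient.mk P.asIdeal) w) =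
      Ideal.Quotient.mk J (map (algebraMap R (locRing K P)) w) := by
    intro w
    have h1 : θ.comp (map (Ideal.Quotient.mk P.asIdeal)) =
        (Ideal.Quotient.mk J).comp (map (algebraMap R (locRing K P))) := by
      apply MvPolynomial.ringHom_ext
      · intro r
        simp only [RingHom.comp_apply, map_C, θ, coe_eval₂Hom, eval₂_C]
        rfl
      · intro l
        simp only [RingHom.comp_apply, map_X, θ, coe_eval₂Hom, eval₂_X]
    exact congrArg (fun g : MvPolynomial σ R →+* _ => g w) h1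
  have hsurj : Function.Surjective θ := by
    intro z
    obtain ⟨z, rfl⟩ := Ideal.Quotient.mk_surjective z
    obtain ⟨w, hw⟩ := crit_ex P hϖ hCJ z
    exact ⟨map (Ideal.Quotient.mk P.asIdeal) w, (hθ w).trans (Ideal.Quotient.eq.mpr hw).symm⟩
  have hker : ∀ z ∈ Ideal.span (insert (map (Ideal.Quotient.mk P.asIdeal) F)
      (Set.range fun l => pderiv l (map (Ideal.Quotient.mk P.asIdeal) F))), θ z = 0 := by
    intro z hz
    have h1 : Ideal.span (insert (map (Ideal.Quotient.mk P.asIdeal) F)
      (Set.range fun l => pderiv l (map (Ideal.Quotient.mk P.asIdeal) F))) ≤ RingHom.ker θ := by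
      rw [Ideal.span_le]
      rintro _ (rfl | ⟨l, rfl⟩)
      · rw [SetLike.mem_coe, RingHom.mem_ker, hθ, Ideal.Quotient.eq_zero_iff_mem]
        exact Ideal.subset_span (Set.mem_insert_of_mem _ (Set.mem_insert _ _))
      · rw [SetLike.mem_coe, RingHom.mem_ker]
        change θ (pderiv l (map (Ideal.Quotient.mk P.asIdeal) F)) = 0
        rw [pderiv_map, hθ, Ideal.Quotient.eq_zero_iff_mem, ← pderiv_map]
        exact Ideal.subset_span (Set.mem_insert_of_mem _ (Set.mem_insert_of_mem _ ⟨l, rfl⟩))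
    exact h1 hz
  exact Finite.of_surjective (Ideal.Quotient.lift _ θ hker)
    (Ideal.Quotient.lift_surjective_of_surjective _ _ hsurj)

end Loc

/-- The affine scheme of the singular points of the hypersurface `f = 0` is finite. -/
def FinCrit {k σ : Type} [CommRing k] (f : MvPolynomial σ k) : Prop :=
  Finite (MvPolynomial σ k ⧸ Ideal.span (insert f (Set.range fun l => pderiv l f)))

/-- The tangent cones at the singular points of the scheme `F = 0` have corank at most one. -/
def TcAll {R σ : Type} [CommRing R] [Fintype σ] (F : MvPolynomial σ R) : Prop :=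
  ∀ 𝔮 : Ideal (MvPolynomial σ R), 𝔮.IsMaximal → F ∈ 𝔮 ^ 2 → TcAt F 𝔮

/-- The equation, in the chart `x_i = 1`, of the hypersurface with the coefficients `a`. -/
noncomputable def chartEq {R : Type} [CommRing R] {n d : ℕ} (a : Mono n d → R) (i : Fin (n + 1)) :
    MvPolynomial {l : Fin (n + 1) // l ≠ i} R :=
  dehom i (form a)

/-- In all charts, the fibres of the hypersurface over all primes have finitely many singular points,
and the tangent cones at the singular points of the total space have corank at most one. -/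
def CorankOne (E : Type) [Field E] [NumberField E] {n d : ℕ} (a : Mono n d → 𝓞 E) : Prop :=
  ∀ i : Fin (n + 1), TcAll (chartEq a i) ∧ ∀ P : HeightOneSpectrum (𝓞 E),
    FinCrit (chartEq (fun μ => Ideal.Quotient.mk P.asIdeal (a μ)) i)

theorem crit_dehom_map {R S : Type} [CommRing R] [CommRing S] {n : ℕ} (i : Fin (n + 1))
    (θ : R →+* S) (q : MvPolynomial (Fin (n + 1)) R) :
    map θ (dehom i q) = dehom i (map θ q) := by
  have h1 : (map θ).comp (dehom i : _ →ₐ[R] _).toRingHom =
      (dehom i : _ →ₐ[S] _).toRingHom.comp (map θ) := by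
    apply MvPolynomial.ringHom_ext
    · intro c
      change map θ (dehom i (C c)) = dehom i (map θ (C c))
      rw [dehom_C, map_C, map_C, dehom_C]
    · intro l
      change map θ (dehom i (X l)) = dehom i (map θ (X l))
      rw [map_X]
      by_cases h : l = i
      · subst h
        rw [dehom_X_self, dehom_X_self, map_one]
      · have h1 : dehom i (X l : MvPolynomial (Fin (n + 1)) R) = X ⟨l, h⟩ := dehom_X i ⟨l, h⟩
        have h2 : dehom i (X l : MvPolynomial (Fin (n + 1)) S) = X ⟨l, h⟩ := dehom_X i ⟨l, h⟩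
        rw [h1, h2, map_X]
  exact congrArg (fun g : MvPolynomial (Fin (n + 1)) R →+* _ => g q) h1

/-- **The criterion.** -/
theorem model_of_corankOne {n d : ℕ} (hn : 2 ≤ n) (hd : 2 ≤ d) {E : Type} [Field E]
    [NumberField E] {a : Mono n d → 𝓞 E} (hs : NoSingular E a) (hc : CorankOne E a) :
    Smooth (hProjTo (formIdeal fun μ => algebraMap (𝓞 E) E (a μ))) ∧
      HasRegularModel E (hProjTo (formIdeal fun μ => algebraMap (𝓞 E) E (a μ))) := by
  obtain ⟨m, N, hm, hmN⟩ := hs.jac
  have h1 : map (algebraMap (𝓞 E) E) (form a) = form fun μ => algebraMap (𝓞 E) E (a μ) :=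
    map_form _ a
  refine ⟨?_, ?_⟩
  · exact smooth_projTo_of_jac (formIdeal fun μ => algebraMap (𝓞 E) E (a μ)).toHom
      (isHomogeneous_form fun μ => algebraMap (𝓞 E) E (a μ)) rfl
      fun i => by
        have := jac_frac (K := E) hm (hmN i)
        rwa [h1] at this
  · refine m6_exists_model_form (R := 𝓞 E) (K := E) (isHomogeneous_form a) _ ?_
      (RingOfIntegers.not_isField E) hn hd hm hmN ?_
    · change Ideal.span {form fun μ => algebraMap (𝓞 E) E (a μ)} = _
      rw [h1]
    · intro P hmP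
      obtain ⟨ϖ, hϖ⟩ := IsDiscreteValuationRing.exists_irreducible (locRing E P)
      refine Or.inr ⟨Ideal.finiteQuotientOfFreeOfNeBot _ P.ne_bot, ϖ, hϖ, fun i => ⟨?_, ?_⟩⟩
      · rw [← crit_dehom_map]
        refine finSing_loc P hϖ ?_
        have h2 := (hc i).2 P
        rw [chartEq] at h2
        have h3 : map (Ideal.Quotient.mk P.asIdeal) (dehom i (form a)) =
            dehom i (form fun μ => Ideal.Quotient.mk P.asIdeal (a μ)) := by
          rw [crit_dehom_map, map_form]
        rw [h3]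
        exact h2
      · intro 𝔮 hmax hC _ hF
        rw [← crit_dehom_map] at hF ⊢
        exact tcAt_loc P hϖ (hc i).1 hmax hC hF

end Pool.Agent.Lib.MP_6a3dac_ag.Maj
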