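import Pool.Agent.Lib.MP_6a3dac_ag.Maj.LocalCount2
import Pool.Agent.Lib.MP_6a3dac_ag.Mg.G034
import Pool.Agent.Lib.MP_6a3dac_ag.Mg.G038

/-!
# Most hypersurfaces of large degree have regular models
-/

set_option autoImplicit false

namespace Pool.Agent.Lib.MP_6a3dac_ag.Maj

open MvPolynomial NumberField IsDedekindDomain Filter Topology AlgebraicGeometry
open Pool.Agent.Lib.MP_6a3dac_ag.DNF Pool.Agent.Lib.MP_6a3dac_ag.Sys

theorem tc_density (E : Type) [Field E] [NumberField E] {s : ℕ}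
    (b : Module.Basis (Fin s) ℤ (𝓞 E)) {n : ℕ} (hn : 2 ≤ n) {ε : ℝ} (hε : 0 < ε) :
    ∃ d₀, ∀ d, d₀ ≤ d → ∀ᶠ H in atTop, tcC E - ε ≤ prop (fun u : Mono n d × Fin s → ℤ =>
      Smooth (hProjTo (formIdeal fun μ => algebraMap (𝓞 E) E (coeffs b u μ))) ∧
        HasRegularModel E (hProjTo (formIdeal fun μ => algebraMap (𝓞 E) E (coeffs b u μ)))) H := by
  classical
  obtain ⟨d₀, hd₀⟩ := eta_small2 E n (show (0 : ℝ) < ε / 4 by linarith)
  refine ⟨max d₀ 2, fun d hd => ?_⟩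
  have hd2 : 2 ≤ d := (le_max_right _ _).trans hd
  obtain ⟨g, G, hg, hgG, hpair⟩ := exists_pair_mono hn hd2
  obtain ⟨C, M₀, hC⟩ := tail_bound b g G hg hgG
  obtain ⟨M, hM⟩ := exists_nat_gt (max (max (M₀ : ℝ) 2) (C / (ε / 4)))
  have hM0 : M₀ ≤ M := by
    have := ((le_max_left _ _).trans (le_max_left _ _)).trans hM.le
    exact_mod_cast this
  have hM2 : 2 ≤ M := by
    have := ((le_max_right _ _).trans (le_max_left _ _)).trans hM.le
    exact_mod_cast this
  have hMpos : (0 : ℝ) < M := by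
    have : (2 : ℝ) ≤ M := by exact_mod_cast hM2
    linarith
  have hCM : C / M ≤ ε / 4 := by
    rw [div_le_iff₀ hMpos]
    have h3 := (le_max_right _ _).trans_lt hM
    rw [div_lt_iff₀ (by linarith)] at h3
    linarith
  set T : Finset (HeightOneSpectrum (𝓞 E)) := (finite_small E M).toFinset with hT
  have hmem : ∀ P, P ∈ T ↔ ∃ p : ℕ, p.Prime ∧ p ≤ M ∧ (p : 𝓞 E) ∈ P.asIdeal := by
    intro P
    simp [hT]
  choose ϖ hϖ using fun P : HeightOneSpectrum (𝓞 E) =>
    IsDiscreteValuationRing.exists_irreducible (locRing E P)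
  have h1 := small_primes2 b (show 1 ≤ n by omega) (show 1 ≤ d by omega) T ϖ hϖ
    (hd₀ d ((le_max_left _ _).trans hd) T)
  have h2 := (hC M hM0).mono (fun u hu => hu) hCM
  have h3 : UD (fun u : Mono n d × Fin s → ℤ => ∃ i ∈ (Finset.univ : Finset (Fin (n + 1))),
      aeval (coeffs b u) (g i) = 0) (∑ i : Fin (n + 1), 0) :=
    UD.exists_finset Finset.univ fun i _ =>
      UD.of_tendsto (tendsto_prop_zero b (g i) (hg i).ne_zero)
  rw [Finset.sum_const_zero] at h3
  have h4 := (h1.or h2).or h3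
  filter_upwards [h4 (ε / 4) (by linarith)] with H hH
  have h5 : 1 - prop (fun u : Mono n d × Fin s → ℤ =>
      Smooth (hProjTo (formIdeal fun μ => algebraMap (𝓞 E) E (coeffs b u μ))) ∧
        HasRegularModel E (hProjTo (formIdeal fun μ => algebraMap (𝓞 E) E (coeffs b u μ)))) H ≤
      1 - tcC E + ε / 4 + ε / 4 + 0 + ε / 4 := by
    rw [← prop_compl]
    refine (prop_mono (fun u hu => ?_) H).trans hH
    by_contra hcon
    push Not at hcon
    obtain ⟨⟨hc1, hc2⟩, hc3⟩ := hcon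
    apply hu
    obtain ⟨m, N, hm, hmN⟩ := exists_jac (fun i L _ a x hx h0 hl => (hpair i L a x hx h0 hl).1)
      (coeffs b u) fun i => hc3 i (Finset.mem_univ _)
    refine hasRegularModel_tc hn hd2 hpair hm hmN fun P hP => ?_
    by_cases hPT : P ∈ T
    · exact Or.inr ⟨ϖ P, hϖ P, (hc1 P hPT).tcSing⟩
    · left
      have hPT' := fun h => hPT ((hmem P).mpr h)
      refine ⟨fun h2P => hPT' ⟨2, Nat.prime_two, hM2, by exact_mod_cast h2P⟩, fun i hi => ?_⟩
      exact hc2 P (fun p hp hpM hpP => hPT' ⟨p, hp, hpM, hpP⟩) i hi.1 hi.2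
  linarith

end Pool.Agent.Lib.MP_6a3dac_ag.Maj
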