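import Pool.Agent.Lib.MP_6a3dac_ag.Maj.Num

/-!
# The constant for the double points of corank at most one
-/

set_option autoImplicit false

namespace Pool.Agent.Lib.MP_6a3dac_ag.Maj

open NumberField IsDedekindDomain

/-- The loss at the closed points of degree `e` over a field with `q` elements. -/
noncomputable def tcE (q : ℝ) (e : ℕ) : ℝ :=
  1 / (e * (q ^ e) ^ 2 * (q ^ e - 1) ^ 2 * (q ^ e + 1))

/-- The loss at a prime with residue field of `q` elements. -/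
noncomputable def tcLoss (q : ℝ) : ℝ := ∑' e : ℕ, tcE q (e + 1)

/-- The product of the local factors. -/
noncomputable def tcC (E : Type) [Field E] [NumberField E] : ℝ :=
  ∏' P : HeightOneSpectrum (𝓞 E), (1 - tcLoss (Nat.card (𝓞 E ⧸ P.asIdeal)))

/-! ### R7 -/

/-- The general upper bound of the terms. -/
theorem r7_le {q c : ℝ} (hq : 2 ≤ q) (hc : 0 ≤ c)
    (h : ∀ Q : ℝ, q ≤ Q → Q ^ 3 ≤ c * ((Q - 1) ^ 2 * (Q + 1))) (e : ℕ) :
    tcE q (e + 1) ≤ c * (1 / q ^ 5) ^ (e + 1) := by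
  have h1 : q ≤ q ^ (e + 1) := by
    calc q = q ^ 1 := (pow_one q).symm
      _ ≤ q ^ (e + 1) := pow_le_pow_right₀ (by linarith) (by omega)
  have h0 := h _ h1
  unfold tcE
  have h2 : (1 / q ^ 5) ^ (e + 1) = 1 / (q ^ (e + 1)) ^ 5 := by
    rw [one_div_pow, ← pow_mul, ← pow_mul, mul_comm]
  rw [h2]
  set Q := q ^ (e + 1) with hQ
  have he : (1 : ℝ) ≤ ((e + 1 : ℕ) : ℝ) := by
    push_cast
    linarith [(Nat.cast_nonneg e : (0 : ℝ) ≤ _)]
  have hQ0 : (0 : ℝ) < Q := by linarith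
  have hQ1 : (0 : ℝ) < Q - 1 := by linarith
  rw [mul_one_div, div_le_div_iff₀ (by positivity) (by positivity), one_mul]
  have h3 : 0 ≤ c * (Q ^ 2 * (Q - 1) ^ 2 * (Q + 1)) := by positivity
  calc Q ^ 5 = Q ^ 2 * Q ^ 3 := by ring
    _ ≤ Q ^ 2 * (c * ((Q - 1) ^ 2 * (Q + 1))) := by gcongr
    _ = 1 * (c * (Q ^ 2 * (Q - 1) ^ 2 * (Q + 1))) := by ring
    _ ≤ ((e + 1 : ℕ) : ℝ) * (c * (Q ^ 2 * (Q - 1) ^ 2 * (Q + 1))) :=
        mul_le_mul_of_nonneg_right he h3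
    _ = c * (((e + 1 : ℕ) : ℝ) * Q ^ 2 * (Q - 1) ^ 2 * (Q + 1)) := by ring

theorem r7_geom {q : ℝ} (c : ℝ) (hq : 2 ≤ q) :
    HasSum (fun e : ℕ => c * (1 / q ^ 5) ^ (e + 1)) (c / (q ^ 5 - 1)) := by
  have hq5 : (32 : ℝ) ≤ q ^ 5 := by
    calc (32 : ℝ) = 2 ^ 5 := by norm_num
      _ ≤ q ^ 5 := pow_le_pow_left₀ (by norm_num) hq 5
  have h0 : 0 ≤ 1 / q ^ 5 := by positivity
  have h1 : 1 / q ^ 5 < 1 := by
    rw [div_lt_one (by linarith)]; linarith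
  have h := (hasSum_geometric_of_lt_one h0 h1).mul_left (c * (1 / q ^ 5))
  have e1 : (fun e : ℕ => c * (1 / q ^ 5) ^ (e + 1)) =
      fun e : ℕ => c * (1 / q ^ 5) * (1 / q ^ 5) ^ e := by
    funext e; rw [pow_succ]; ring
  rw [e1]
  have e2 : c / (q ^ 5 - 1) = c * (1 / q ^ 5) * (1 - 1 / q ^ 5)⁻¹ := by
    have h3 : q ^ 5 - 1 ≠ 0 := by linarith
    have h4 : q ^ 5 ≠ 0 := by linarith
    field_simp
  rw [e2]
  exact h

theorem r7_four {q : ℝ} (hq : 2 ≤ q) (Q : ℝ) (hQ : q ≤ Q) :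
    Q ^ 3 ≤ 4 * ((Q - 1) ^ 2 * (Q + 1)) := by
  obtain ⟨y, rfl⟩ : ∃ y, Q = y + 2 := ⟨Q - 2, by ring⟩
  have hy : 0 ≤ y := by linarith
  nlinarith [pow_nonneg hy 2, pow_nonneg hy 3]

theorem r7_three {q : ℝ} (hq : 3 ≤ q) (Q : ℝ) (hQ : q ≤ Q) :
    Q ^ 3 ≤ 9 / 4 * ((Q - 1) ^ 2 * (Q + 1)) := by
  obtain ⟨y, rfl⟩ : ∃ y, Q = y + 3 := ⟨Q - 3, by ring⟩
  have hy : 0 ≤ y := by linarith
  nlinarith [pow_nonneg hy 2, pow_nonneg hy 3]

theorem tcE_nonneg {q : ℝ} (hq : 2 ≤ q) (e : ℕ) : 0 ≤ tcE q e := by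
  have h1 : (1 : ℝ) ≤ q ^ e := one_le_pow₀ (by linarith)
  unfold tcE
  apply div_nonneg (by norm_num)
  apply mul_nonneg (mul_nonneg (by positivity) (sq_nonneg _)) (by linarith)

/-- `tcE q e ≤ 4 / (q ^ 5) ^ e` for `q ≥ 2`. -/
theorem summable_tcE {q : ℝ} (hq : 2 ≤ q) : Summable fun e : ℕ => tcE q (e + 1) :=
  Summable.of_nonneg_of_le (fun e => tcE_nonneg hq (e + 1))
    (fun e => r7_le hq (by norm_num) (r7_four hq) e) (r7_geom 4 hq).summable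

theorem tcLoss_nonneg {q : ℝ} (hq : 2 ≤ q) : 0 ≤ tcLoss q :=
  tsum_nonneg fun e => tcE_nonneg hq (e + 1)

theorem tcLoss_le {q : ℝ} (hq : 2 ≤ q) : tcLoss q ≤ 5 / q ^ 5 := by
  have h := (summable_tcE hq).tsum_le_tsum
    (fun e => r7_le hq (by norm_num) (r7_four hq) e) (r7_geom 4 hq).summable
  rw [(r7_geom 4 hq).tsum_eq] at h
  refine h.trans ?_
  have hq5 : (32 : ℝ) ≤ q ^ 5 := by
    calc (32 : ℝ) = 2 ^ 5 := by norm_num
      _ ≤ q ^ 5 := pow_le_pow_left₀ (by norm_num) hq 5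
  rw [div_le_div_iff₀ (by linarith) (by linarith)]
  linarith

/-- The value is `0.08404...`. -/
theorem tcLoss_two : tcLoss 2 ≤ 85 / 1000 := by
  have h2 : (2 : ℝ) ≤ 2 := le_refl _
  have hs := summable_tcE h2
  have h1 := hs.sum_add_tsum_nat_add 2
  have h3 : tcLoss 2 = tcE 2 1 + tcE 2 2 + ∑' e : ℕ, tcE 2 (e + 2 + 1) := by
    unfold tcLoss
    rw [← h1, Finset.sum_range_succ, Finset.sum_range_one]
  have h4 : ∑' e : ℕ, tcE 2 (e + 2 + 1) ≤ 4 / 31 / 1024 := by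
    have hle : ∀ e : ℕ, tcE 2 (e + 2 + 1) ≤ 1 / 1024 * (4 * (1 / (2 : ℝ) ^ 5) ^ (e + 1)) := by
      intro e
      refine (r7_le h2 (c := 4) (by norm_num) (r7_four h2) (e + 2)).trans (le_of_eq ?_)
      rw [show e + 2 + 1 = (e + 1) + 2 by ring, pow_add _ (e + 1) 2]
      norm_num
      ring
    have hg := (r7_geom 4 h2).mul_left (1 / 1024)
    have h5 := ((summable_nat_add_iff 2).2 hs).tsum_le_tsum hle hg.summable
    rw [hg.tsum_eq] at h5
    refine h5.trans (le_of_eq ?_)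
    norm_num
  have h5 : tcE 2 1 = 1 / 12 := by
    unfold tcE
    norm_num
  have h6 : tcE 2 2 = 1 / 1440 := by
    unfold tcE
    norm_num
  rw [h3, h5, h6]
  linarith

/-- `q - 1 ≥ 2 / 3 * q`, so `tcE q e ≤ 9 / 4 / (q ^ 5) ^ e`. -/
theorem tcLoss_le_of_three_le {q : ℝ} (hq : 3 ≤ q) : tcLoss q ≤ 5 / 2 / q ^ 5 := by
  have hq2 : (2 : ℝ) ≤ q := by linarith
  have h := (summable_tcE hq2).tsum_le_tsum
    (fun e => r7_le hq2 (by norm_num) (r7_three hq) e) (r7_geom (9 / 4) hq2).summable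
  rw [(r7_geom (9 / 4) hq2).tsum_eq] at h
  refine h.trans ?_
  have hq5 : (32 : ℝ) ≤ q ^ 5 := by
    calc (32 : ℝ) = 2 ^ 5 := by norm_num
      _ ≤ q ^ 5 := pow_le_pow_left₀ (by norm_num) hq2 5
  rw [div_le_div_iff₀ (by linarith) (by linarith)]
  linarith

/-! ### R8 -/

section R8

variable {E : Type} [Field E] [NumberField E]

lemma r8_loss_nonneg (P : HeightOneSpectrum (𝓞 E)) :
    0 ≤ tcLoss (Nat.card (𝓞 E ⧸ P.asIdeal)) := tcLoss_nonneg (two_le_norm P)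

lemma r8_loss_le (P : HeightOneSpectrum (𝓞 E)) :
    tcLoss (Nat.card (𝓞 E ⧸ P.asIdeal)) ≤ 5 / 32 := by
  have h1 := two_le_norm P
  refine (tcLoss_le h1).trans ?_
  have h2 : (2 : ℝ) ^ 5 ≤ (Nat.card (𝓞 E ⧸ P.asIdeal) : ℝ) ^ 5 := by gcongr
  rw [div_le_iff₀ (by positivity)]
  linarith

lemma r8_loss_le' (P : HeightOneSpectrum (𝓞 E)) :
    tcLoss (Nat.card (𝓞 E ⧸ P.asIdeal)) ≤ 1 / (Nat.card (𝓞 E ⧸ P.asIdeal) : ℝ) ^ 2 := by
  have h1 := two_le_norm P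
  refine (tcLoss_le h1).trans ?_
  set q : ℝ := (Nat.card (𝓞 E ⧸ P.asIdeal) : ℝ)
  have h2 : (2 : ℝ) ^ 3 ≤ q ^ 3 := by gcongr
  have h3 : (0 : ℝ) < q := by linarith
  rw [div_le_div_iff₀ (by positivity) (by positivity)]
  nlinarith [sq_nonneg q]

lemma r8_summable : Summable fun P : HeightOneSpectrum (𝓞 E) =>
    tcLoss (Nat.card (𝓞 E ⧸ P.asIdeal)) :=
  Summable.of_nonneg_of_le r8_loss_nonneg r8_loss_le' (summable_norm E)

lemma r8_pos (P : HeightOneSpectrum (𝓞 E)) :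
    0 < 1 - tcLoss (Nat.card (𝓞 E ⧸ P.asIdeal)) := by
  have := r8_loss_le P
  linarith

lemma r8_summable_log : Summable fun P : HeightOneSpectrum (𝓞 E) =>
    Real.log (1 - tcLoss (Nat.card (𝓞 E ⧸ P.asIdeal))) := by
  have h := Real.summable_log_one_add_of_summable (r8_summable (E := E)).neg
  simpa [sub_eq_add_neg] using h

lemma r8_exp : Real.exp (∑' P : HeightOneSpectrum (𝓞 E),
    Real.log (1 - tcLoss (Nat.card (𝓞 E ⧸ P.asIdeal)))) = tcC E :=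
  Real.rexp_tsum_eq_tprod r8_pos r8_summable_log

end R8

/-- As `majC_pos`, with `tcLoss q ≤ 5 / q ^ 5 ≤ 5 / 32`. -/
theorem tcC_pos (E : Type) [Field E] [NumberField E] : 0 < tcC E := by
  rw [← r8_exp]
  exact Real.exp_pos _

/-- As `majC_le_prod`. -/
theorem tcC_le_prod (E : Type) [Field E] [NumberField E] (T : Finset (HeightOneSpectrum (𝓞 E))) :
    tcC E ≤ ∏ P ∈ T, (1 - tcLoss (Nat.card (𝓞 E ⧸ P.asIdeal))) := by
  have h1 : ∏ P ∈ T, (1 - tcLoss (Nat.card (𝓞 E ⧸ P.asIdeal))) =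
      Real.exp (∑ P ∈ T, Real.log (1 - tcLoss (Nat.card (𝓞 E ⧸ P.asIdeal)))) := by
    rw [Real.exp_sum]
    exact Finset.prod_congr rfl fun P _ => (Real.exp_log (r8_pos P)).symm
  rw [← r8_exp, h1, Real.exp_le_exp]
  have h2 := (r8_summable_log (E := E)).neg.sum_le_tsum T (fun P _ => by
    have h3 : Real.log (1 - tcLoss (Nat.card (𝓞 E ⧸ P.asIdeal))) ≤ 0 :=
      Real.log_nonpos (r8_pos P).le (by linarith [r8_loss_nonneg P])
    linarith)
  rw [tsum_neg, Finset.sum_neg_distrib] at h2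
  linarith

/-- The bound for the loss at the primes over `p`. -/
noncomputable def r8_g (p : ℕ) : ℝ := if p = 2 then 85 / 1000 else 5 / 2 * (1 / (p : ℝ) ^ 5)

lemma r8_g_nonneg (p : ℕ) : 0 ≤ r8_g p := by
  unfold r8_g
  split_ifs <;> positivity

lemma r8_le_g {p m : ℕ} (hp : p.Prime) (hm : p ≤ m) : tcLoss (m : ℝ) ≤ r8_g p := by
  unfold r8_g
  split_ifs with h
  · subst h
    rcases eq_or_lt_of_le hm with h2 | h2
    · rw [← h2]
      exact_mod_cast tcLoss_two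
    · have h3 : (3 : ℝ) ≤ (m : ℝ) := by exact_mod_cast h2
      refine (tcLoss_le_of_three_le h3).trans ?_
      have h4 : (3 : ℝ) ^ 5 ≤ (m : ℝ) ^ 5 := by gcongr
      rw [div_le_iff₀ (by positivity)]
      linarith
  · have h3 : 3 ≤ p := by
      have := hp.two_le
      omega
    have h5 : (3 : ℝ) ≤ (p : ℝ) := by exact_mod_cast h3
    have h6 : (p : ℝ) ≤ (m : ℝ) := by exact_mod_cast hm
    refine (tcLoss_le_of_three_le (h5.trans h6)).trans ?_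
    rw [div_eq_mul_one_div]
    gcongr

lemma r8_primes (S : Finset ℕ) (hS : ∀ p ∈ S, p.Prime) :
    ∑ p ∈ S, r8_g p ≤ 85 / 1000 + 5 / 2 * (1 / 243 + 1 / 3125 + 1 / 16807 + 1 / 33000) := by
  classical
  obtain ⟨M, hM⟩ : ∃ M, ∀ p ∈ S, p < 11 + M := by
    refine ⟨S.sup id, fun p hp => ?_⟩
    have := Finset.le_sup (f := id) hp
    simp only [id] at this
    omega
  have hsub : S ⊆ {2, 3, 5, 7} ∪ Finset.Ico 11 (11 + M) := by
    intro p hp
    have h1 := hS p hp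
    have h2 := hM p hp
    rw [Finset.mem_union, Finset.mem_Ico]
    by_cases h3 : 11 ≤ p
    · exact Or.inr ⟨h3, h2⟩
    · left
      have h4 : p < 11 := by omega
      exact r5_small p h4 h1
  refine (Finset.sum_le_sum_of_subset_of_nonneg hsub fun p _ _ => r8_g_nonneg p).trans ?_
  have hdis : Disjoint ({2, 3, 5, 7} : Finset ℕ) (Finset.Ico 11 (11 + M)) := by
    rw [Finset.disjoint_left]
    intro p hp hp'
    rw [Finset.mem_Ico] at hp'
    simp only [Finset.mem_insert, Finset.mem_singleton] at hp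
    omega
  rw [Finset.sum_union hdis]
  have h1 : ∑ p ∈ ({2, 3, 5, 7} : Finset ℕ), r8_g p =
      85 / 1000 + 5 / 2 * (1 / 243 + 1 / 3125 + 1 / 16807) := by
    rw [Finset.sum_insert (by decide), Finset.sum_insert (by decide),
      Finset.sum_insert (by decide), Finset.sum_singleton]
    unfold r8_g
    norm_num
  have h2 : ∑ p ∈ Finset.Ico 11 (11 + M), r8_g p ≤
      5 / 22 * ∑ p ∈ Finset.Ico 11 (11 + M), 1 / (p : ℝ) ^ 4 := by
    rw [Finset.mul_sum]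
    refine Finset.sum_le_sum fun p hp => ?_
    have h3 : 11 ≤ p := (Finset.mem_Ico.1 hp).1
    have h4 : (11 : ℝ) ≤ (p : ℝ) := by exact_mod_cast h3
    have h5 : p ≠ 2 := by omega
    unfold r8_g
    rw [if_neg h5, mul_one_div, mul_one_div, div_le_div_iff₀ (by positivity) (by positivity)]
    nlinarith [pow_pos (show (0 : ℝ) < p by linarith) 4]
  have h3 := r5_tail M
  have h4 : (0 : ℝ) < 1 / ((10 : ℝ) + M) ^ 3 := by positivity
  rw [h1]
  linarith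

/-- Like `majC_rat`: the product is at least
`1 - tcLoss 2 - 5 / 2 * ∑ 1 / p ^ 5 ≥ 1 - 0.085 - 0.0115`, the sum over the odd primes `p`. -/
theorem tcC_rat : 9 / 10 < tcC ℚ := by
  classical
  have hmul : Multipliable fun P : HeightOneSpectrum (𝓞 ℚ) =>
      (1 - tcLoss (Nat.card (𝓞 ℚ ⧸ P.asIdeal))) :=
    Real.multipliable_of_summable_log r8_pos r8_summable_log
  have hlim := hmul.hasProd
  have key : ∀ u : Finset (HeightOneSpectrum (𝓞 ℚ)),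
      1 - (85 / 1000 + 5 / 2 * (1 / 243 + 1 / 3125 + 1 / 16807 + 1 / 33000)) ≤
        ∏ P ∈ u, (1 - tcLoss (Nat.card (𝓞 ℚ ⧸ P.asIdeal))) := by
    intro u
    refine le_trans ?_ (r5_weier u _ r8_loss_nonneg fun P => (r8_loss_le P).trans (by norm_num))
    have h1 : ∑ P ∈ u, tcLoss (Nat.card (𝓞 ℚ ⧸ P.asIdeal)) ≤
        ∑ P ∈ u, r8_g (Ideal.absNorm (r3_under P)) :=
      Finset.sum_le_sum fun P _ => r8_le_g (r5_prime P) (r3_norm_le P)
    have h4 : ∑ P ∈ u, r8_g (Ideal.absNorm (r3_under P)) ≤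
        ∑ b ∈ u.image (fun P => Ideal.absNorm (r3_under P)), r8_g b := by
      rw [Finset.sum_comp r8_g (fun P => Ideal.absNorm (r3_under P))]
      refine Finset.sum_le_sum fun b _ => ?_
      have h5 := r3_fiber u b
      rw [Module.finrank_self] at h5
      rw [nsmul_eq_mul]
      have h6 : ((u.filter fun P => Ideal.absNorm (r3_under P) = b).card : ℝ) ≤ 1 := by
        exact_mod_cast h5
      have h7 := r8_g_nonneg b
      nlinarith
    have h8 := r8_primes (u.image (fun P => Ideal.absNorm (r3_under P))) (by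
      intro p hp
      obtain ⟨P, _, rfl⟩ := Finset.mem_image.1 hp
      exact r5_prime P)
    linarith
  have h9 : 1 - (85 / 1000 + 5 / 2 * (1 / 243 + 1 / 3125 + 1 / 16807 + 1 / 33000)) ≤ tcC ℚ :=
    ge_of_tendsto' hlim key
  refine lt_of_lt_of_le ?_ h9
  norm_num

/-- The number of closed points degrees which are treated separately. -/
def rad2 (n d : ℕ) : ℕ := d / (1 + (n + 1) + (n + 1) ^ 2)

/-! ### R9 -/

/-- the length `L` -/
def r9_L (n : ℕ) : ℕ := 1 + (n + 1) + (n + 1) ^ 2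

lemma r9_eta_le (n d : ℕ) : etaK n d ≤
    (n + 1) * ((n : ℝ) ^ n + 1) * (n * r9_L n + 1) ^ (n ^ 2) *
      ((rad2 n d + 1 : ℕ) : ℝ) ^ (n ^ 2) := by
  have hd : d ≤ r9_L n * (rad2 n d + 1) := by
    have h1 : 0 < r9_L n := by unfold r9_L; positivity
    have h2 : rad2 n d = d / r9_L n := rfl
    rw [h2]
    exact (Nat.lt_mul_div_succ d h1).le
  have hd' : (d : ℝ) ≤ (r9_L n : ℝ) * ((rad2 n d + 1 : ℕ) : ℝ) := by exact_mod_cast hd
  have h1 : (1 : ℝ) ≤ ((rad2 n d + 1 : ℕ) : ℝ) := by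
    push_cast
    linarith [(Nat.cast_nonneg (rad2 n d) : (0 : ℝ) ≤ _)]
  have h2 : (n : ℝ) * d + 1 ≤ (n * r9_L n + 1) * ((rad2 n d + 1 : ℕ) : ℝ) := by
    have h3 : (n : ℝ) * d ≤ n * (r9_L n * ((rad2 n d + 1 : ℕ) : ℝ)) := by gcongr
    nlinarith
  unfold etaK
  rw [mul_assoc ((n + 1 : ℝ) * ((n : ℝ) ^ n + 1)), ← mul_pow]
  gcongr

/-- As `eta_small`. -/
theorem eta_small2 (E : Type) [Field E] [NumberField E] (n : ℕ) {ε : ℝ} (hε : 0 < ε) :
    ∃ d₀, ∀ d, d₀ ≤ d → ∀ T : Finset (HeightOneSpectrum (𝓞 E)),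
      ∑ P ∈ T, etaK n d / (Nat.card (𝓞 E ⧸ P.asIdeal) : ℝ) ^ (rad2 n d + 1) ≤ ε := by
  set S : ℝ := ∑' P : HeightOneSpectrum (𝓞 E), 1 / (Nat.card (𝓞 E ⧸ P.asIdeal) : ℝ) ^ 2 with hS
  have hS0 : 0 ≤ S := tsum_nonneg fun P => by positivity
  set C : ℝ := (n + 1) * ((n : ℝ) ^ n + 1) * (n * r9_L n + 1) ^ (n ^ 2) with hC
  have hC0 : 0 ≤ C := by positivity
  have h1 := (r6_lim (n ^ 2)).const_mul (4 * C * S)
  rw [mul_zero] at h1
  obtain ⟨r₀, hr₀⟩ := Filter.eventually_atTop.1 (h1.eventually_le_const hε)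
  refine ⟨r9_L n * (r₀ + 1), fun d hd T => ?_⟩
  have hL : 0 < r9_L n := by unfold r9_L; positivity
  have hr : r₀ + 1 ≤ rad2 n d := by
    have h2 : rad2 n d = d / r9_L n := rfl
    rw [h2, Nat.le_div_iff_mul_le hL, mul_comm]
    exact hd
  have h3 := hr₀ (rad2 n d) (by omega)
  generalize hrad : rad2 n d = r at hr h3
  have h4 : ∀ P ∈ T, etaK n d / (Nat.card (𝓞 E ⧸ P.asIdeal) : ℝ) ^ (r + 1) ≤
      (4 * C * (((r + 1 : ℕ) : ℝ) ^ (n ^ 2) * (1 / 2) ^ (r + 1))) *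
        (1 / (Nat.card (𝓞 E ⧸ P.asIdeal) : ℝ) ^ 2) := by
    intro P _
    have hq := two_le_norm P
    have heta := r9_eta_le n d
    rw [hrad, ← hC] at heta
    generalize (Nat.card (𝓞 E ⧸ P.asIdeal) : ℝ) = q at hq
    obtain ⟨m, rfl⟩ : ∃ m, r = m + 1 := ⟨r - 1, by omega⟩
    have hq0 : 0 < q := by linarith
    have h5 : (2 : ℝ) ^ m * q ^ 2 ≤ q ^ (m + 1 + 1) := by
      rw [show m + 1 + 1 = m + 2 by ring, pow_add]
      gcongr
    calc etaK n d / q ^ (m + 1 + 1)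
        ≤ (C * ((m + 1 + 1 : ℕ) : ℝ) ^ (n ^ 2)) / ((2 : ℝ) ^ m * q ^ 2) := by
          gcongr
      _ = _ := by
          rw [one_div, one_div, inv_pow, pow_add (2 : ℝ) (m + 1) 1, pow_add (2 : ℝ) m 1]
          field_simp
          ring
  calc ∑ P ∈ T, etaK n d / (Nat.card (𝓞 E ⧸ P.asIdeal) : ℝ) ^ (r + 1)
      ≤ ∑ P ∈ T, (4 * C * (((r + 1 : ℕ) : ℝ) ^ (n ^ 2) * (1 / 2) ^ (r + 1))) *
        (1 / (Nat.card (𝓞 E ⧸ P.asIdeal) : ℝ) ^ 2) := Finset.sum_le_sum h4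
    _ = (4 * C * (((r + 1 : ℕ) : ℝ) ^ (n ^ 2) * (1 / 2) ^ (r + 1))) *
        ∑ P ∈ T, (1 / (Nat.card (𝓞 E ⧸ P.asIdeal) : ℝ) ^ 2) := by rw [Finset.mul_sum]
    _ ≤ (4 * C * (((r + 1 : ℕ) : ℝ) ^ (n ^ 2) * (1 / 2) ^ (r + 1))) * S := by
        have h6 := (summable_norm E).sum_le_tsum T (fun P _ => by positivity)
        gcongr
    _ = 4 * C * S * (((r + 1 : ℕ) : ℝ) ^ (n ^ 2) * (1 / 2) ^ (r + 1)) := by ring
    _ ≤ ε := h3

end Pool.Agent.Lib.MP_6a3dac_ag.Maj
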