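import Pool.Agent.Lib.MP_6a3dac_ag.Mg.G039
import Pool.Agent.Lib.MP_6a3dac_ag.Maj.Num2

/-!
# The proportion of the forms with double points of corank at least two
-/

set_option autoImplicit false

namespace Pool.Agent.Lib.MP_6a3dac_ag.Maj

open MvPolynomial NumberField IsDedekindDomain Filter Topology
open Pool.Agent.Lib.MP_6a3dac_ag.DNF Pool.Agent.Lib.MP_6a3dac_ag.Sys

/-- From `form_surj`, `tc_count`, `UD.hom`. -/
theorem point_UD2 {E : Type} [Field E] [NumberField E] {s : ℕ} (b : Module.Basis (Fin s) ℤ (𝓞 E))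
    {n d e : ℕ} (he : (1 + (n + 1) + (n + 1) ^ 2) * e ≤ d) (i : Fin (n + 1))
    (P : HeightOneSpectrum (𝓞 E)) {ϖ : locRing E P} (hϖ : Irreducible ϖ)
    {𝔮 : Ideal (MvPolynomial {l : Fin (n + 1) // l ≠ i} (locRing E P))} (hmax : 𝔮.IsMaximal)
    (h𝔮 : C ϖ ∈ 𝔮) (hcard : Nat.card (MvPolynomial _ (locRing E P) ⧸ 𝔮) =
      Nat.card (𝓞 E ⧸ P.asIdeal) ^ e) :
    UD (fun u : Mono n d × Fin s → ℤ =>
        dehom i (form fun μ => algebraMap (𝓞 E) (locRing E P) (coeffs b u μ)) ∈ 𝔮 ^ 2 ∧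
        ¬ TcAt (dehom i (form fun μ => algebraMap (𝓞 E) (locRing E P) (coeffs b u μ))) 𝔮)
      (1 / ((Nat.card (𝓞 E ⧸ P.asIdeal) : ℝ) ^ e *
          (((Nat.card (𝓞 E ⧸ P.asIdeal) : ℝ) ^ e) ^ 2 - 1)) /
        ((Nat.card (𝓞 E ⧸ P.asIdeal) : ℝ) ^ e) ^ (n + 2)) := by
  have hcσ : Fintype.card {l : Fin (n + 1) // l ≠ i} = n := by
    rw [Fintype.card_subtype_compl, Fintype.card_fin, Fintype.card_subtype_eq, Nat.add_sub_cancel]
  have hfin := finite_res P hϖ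
  have hq3 := finite_quot_pow hϖ hfin hmax h𝔮 3
  have hq1 : 0 < Nat.card (MvPolynomial {l : Fin (n + 1) // l ≠ i} (locRing E P) ⧸ 𝔮) := by
    have h1 := finite_quot_pow hϖ hfin hmax h𝔮 1
    rw [pow_one] at h1
    exact Nat.card_pos
  have h4 := card_quot_three_le hϖ hfin hmax h𝔮
  rw [hcσ, hcard, ← pow_mul, mul_comm e] at h4
  have hbad := tc_count hϖ hfin hmax h𝔮
  rw [hcσ, hcard, Nat.cast_pow] at hbad
  have hQ : (0 : ℝ) < (Nat.card (𝓞 E ⧸ P.asIdeal) : ℝ) ^ e := by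
    rw [hcard] at hq1
    exact_mod_cast hq1
  refine UD.hom (locHom b i P (𝔮 ^ 3))
    (form_surj b i P hϖ (k := 3) (by norm_num) 𝔮 hmax h𝔮 hq3 h4 (by omega))
    {z | ∃ F, Ideal.Quotient.mk (𝔮 ^ 3) F = z ∧ F ∈ 𝔮 ^ 2 ∧ ¬ TcAt F 𝔮} ?_ ?_
  · rintro u ⟨h1, h2⟩
    exact ⟨_, rfl, h1, h2⟩
  · rw [div_mul_eq_mul_div, le_div_iff₀ (pow_pos hQ _)]
    exact hbad

theorem sum_points_le2 {Q : ℝ} (hQ : 1 < Q) {e : ℕ} (he : 1 ≤ e) (n : ℕ) :
    (∑ i : Fin (n + 1), Q ^ (n - (i : ℕ)) / e) * (1 / (Q * (Q ^ 2 - 1)) / Q ^ (n + 2)) ≤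
      1 / (e * Q ^ 2 * (Q - 1) ^ 2 * (Q + 1)) := by
  have h0 : (0 : ℝ) < e := by exact_mod_cast he
  have hQ0 : 0 < Q := by linarith
  have hQ1 : 0 < Q - 1 := by linarith
  have hQ2 : 0 < Q + 1 := by linarith
  have h1 : ∑ i : Fin (n + 1), Q ^ (n - (i : ℕ)) = (Q ^ (n + 1) - 1) / (Q - 1) := by
    rw [← geom_sum_eq hQ.ne', ← Finset.sum_range_reflect, Finset.sum_range]
    refine Finset.sum_congr rfl fun i _ => ?_
    congr 1
  rw [← Finset.sum_div, h1]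
  have h2 : (Q ^ (n + 1) - 1) / (Q - 1) / e * (1 / (Q * (Q ^ 2 - 1)) / Q ^ (n + 2)) =
      (Q ^ (n + 1) - 1) / Q ^ (n + 1) * (1 / (e * Q ^ 2 * (Q - 1) ^ 2 * (Q + 1))) := by
    have h3 : Q ^ 2 - 1 = (Q - 1) * (Q + 1) := by ring
    rw [h3]
    field_simp
    ring
  rw [h2]
  have h3 : (Q ^ (n + 1) - 1) / Q ^ (n + 1) ≤ 1 := by
    rw [div_le_one (pow_pos hQ0 _)]
    linarith
  have h4 : 0 ≤ 1 / (e * Q ^ 2 * (Q - 1) ^ 2 * (Q + 1)) := by positivity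
  nlinarith

theorem sum_tcE_le {q : ℝ} (hq : 2 ≤ q) (r : ℕ) :
    ∑ e ∈ Finset.Icc 1 r, tcE q e ≤ tcLoss q := by
  have h1 : ∑ e ∈ Finset.Icc 1 r, tcE q e = ∑ e ∈ Finset.range r, tcE q (e + 1) := by
    rw [Finset.range_eq_Ico, Finset.sum_Ico_add' (fun e => tcE q e) 0 r 1]
    rfl
  rw [h1]
  exact (summable_tcE hq).sum_le_tsum _ fun e _ => tcE_nonneg hq _

theorem local_UD2 {E : Type} [Field E] [NumberField E] {s : ℕ} (b : Module.Basis (Fin s) ℤ (𝓞 E))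
    {n d : ℕ} (hn : 1 ≤ n) (hd : 1 ≤ d) (P : HeightOneSpectrum (𝓞 E)) {ϖ : locRing E P}
    (hϖ : Irreducible ϖ) :
    UD (fun u : Mono n d × Fin s → ℤ => ¬ TcForm ϖ
        (form fun μ => algebraMap (𝓞 E) (locRing E P) (coeffs b u μ)))
      (tcLoss (Nat.card (𝓞 E ⧸ P.asIdeal)) +
        etaK n d / (Nat.card (𝓞 E ⧸ P.asIdeal) : ℝ) ^ (rad2 n d + 1)) := by
  classical
  obtain ⟨q, hq⟩ : ∃ q, q = Nat.card (𝓞 E ⧸ P.asIdeal) := ⟨_, rfl⟩
  have hfin := finite_res P hϖ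
  have hres := card_res P hϖ
  have hq2 : (2 : ℝ) ≤ q := by rw [hq]; exact two_le_norm P
  have hq2' : 2 ≤ q := by exact_mod_cast hq2
  have hrd : rad2 n d ≤ d := Nat.div_le_self _ _
  have hL : 4 ≤ 1 + (n + 1) + (n + 1) ^ 2 := by
    have h1 : 1 ≤ (n + 1) ^ 2 := Nat.one_le_pow _ _ (by omega)
    have h2 : 1 ≤ (n + 1) ^ 3 := Nat.one_le_pow _ _ (by omega)
    omega
  have hrd2 : rad2 n d + 1 ≤ (d + 1) / 2 := by
    have h1 : rad2 n d ≤ d / 4 := Nat.div_le_div_left hL (by norm_num)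
    omega
  have hfin1 : ∀ i : Fin (n + 1), ∀ e, 1 ≤ e → (closedPts ϖ i e).Finite := fun i e he =>
    (card_closedPts hϖ hfin i he).1
  have hA : UD (fun u : Mono n d × Fin s → ℤ => ∃ i ∈ (Finset.univ : Finset (Fin (n + 1))),
      ¬ FinJac ϖ (dehom i (form fun μ => algebraMap (𝓞 E) (locRing E P) (coeffs b u μ)))) _ :=
    UD.exists_finset Finset.univ fun i _ => finJac_UD b hn hd i P hϖ
  have hB : UD (fun u : Mono n d × Fin s → ℤ => ∃ i ∈ (Finset.univ : Finset (Fin (n + 1))),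
      FinJac ϖ (dehom i (form fun μ => algebraMap (𝓞 E) (locRing E P) (coeffs b u μ))) ∧
        ∃ 𝔮 : Ideal (MvPolynomial {l : Fin (n + 1) // l ≠ i} (locRing E P)), 𝔮.IsMaximal ∧
          C ϖ ∈ 𝔮 ∧ Nat.card (𝓞 E ⧸ P.asIdeal) ^ (rad2 n d) <
            Nat.card (MvPolynomial {l : Fin (n + 1) // l ≠ i} (locRing E P) ⧸ 𝔮) ∧
          dehom i (form fun μ => algebraMap (𝓞 E) (locRing E P) (coeffs b u μ)) ∈ 𝔮 ^ 2) _ :=
    UD.exists_finset Finset.univ fun i _ => high_UD b hrd i P hϖ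
  have hD : UD (fun u : Mono n d × Fin s → ℤ => ∃ i ∈ (Finset.univ : Finset (Fin (n + 1))),
      ∃ e ∈ Finset.Icc 1 (rad2 n d), 1 ≤ e ∧ e ≤ rad2 n d ∧ ∃ 𝔮 ∈ closedPts ϖ i e,
        dehom i (form fun μ => algebraMap (𝓞 E) (locRing E P) (coeffs b u μ)) ∈ 𝔮 ^ 2 ∧
        ¬ TcAt (dehom i (form fun μ => algebraMap (𝓞 E) (locRing E P) (coeffs b u μ))) 𝔮)
      (∑ i : Fin (n + 1), ∑ e ∈ Finset.Icc 1 (rad2 n d), ((closedPts ϖ i e).ncard : ℝ) *
        (1 / ((q : ℝ) ^ e * (((q : ℝ) ^ e) ^ 2 - 1)) / ((q : ℝ) ^ e) ^ (n + 2))) := by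
    refine UD.exists_finset Finset.univ fun i _ => UD.exists_finset _ fun e he => ?_
    rw [Finset.mem_Icc] at he
    have h1 : UD (fun u : Mono n d × Fin s → ℤ => ∃ 𝔮 ∈ (hfin1 i e he.1).toFinset,
        dehom i (form fun μ => algebraMap (𝓞 E) (locRing E P) (coeffs b u μ)) ∈ 𝔮 ^ 2 ∧
        ¬ TcAt (dehom i (form fun μ => algebraMap (𝓞 E) (locRing E P) (coeffs b u μ))) 𝔮)
        (∑ 𝔮 ∈ (hfin1 i e he.1).toFinset,
          (1 / ((q : ℝ) ^ e * (((q : ℝ) ^ e) ^ 2 - 1)) / ((q : ℝ) ^ e) ^ (n + 2))) := by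
      refine UD.exists_finset _ fun 𝔮 h𝔮 => ?_
      rw [Set.Finite.mem_toFinset] at h𝔮
      obtain ⟨h2, h3, -, h4⟩ := h𝔮
      rw [hq]
      refine point_UD2 b ?_ i P hϖ h2 h3 (by rw [h4, hres])
      refine (Nat.mul_le_mul_left _ he.2).trans ?_
      exact Nat.mul_div_le _ _
    rw [Finset.sum_const, nsmul_eq_mul, ← Set.ncard_eq_toFinset_card _ (hfin1 i e he.1)] at h1
    refine h1.mono ?_ le_rfl
    rintro u ⟨-, -, 𝔮, h2, h3⟩
    exact ⟨𝔮, (Set.Finite.mem_toFinset _).mpr h2, h3⟩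
  refine ((hA.or hB).or hD).mono ?_ ?_
  · intro u hu
    rw [TcForm] at hu
    push Not at hu
    obtain ⟨i, hi⟩ := hu
    by_cases hJ : FinJac ϖ (dehom i (form fun μ => algebraMap (𝓞 E) (locRing E P) (coeffs b u μ)))
    · obtain ⟨𝔮, h1, h2, h3, h4, h5⟩ := hi hJ
      obtain ⟨e, he, hcard⟩ := exists_card_residue hϖ hfin h1 h2
      by_cases her : e ≤ rad2 n d
      · exact Or.inr ⟨i, Finset.mem_univ _, e, Finset.mem_Icc.mpr ⟨he, her⟩, he, her, 𝔮,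
          ⟨h1, h2, h3, hcard⟩, h4, h5⟩
      · refine Or.inl (Or.inr ⟨i, Finset.mem_univ _, hJ, 𝔮, h1, h2, ?_, h4⟩)
        rw [hcard, hres, ← hq]
        exact Nat.pow_lt_pow_right hq2' (by omega)
    · exact Or.inl (Or.inl ⟨i, Finset.mem_univ _, hJ⟩)
  · rw [← hq]
    have hq0 : (0 : ℝ) < q := by linarith
    have e1 : ∑ i : Fin (n + 1), ∑ e ∈ Finset.Icc 1 (rad2 n d), ((closedPts ϖ i e).ncard : ℝ) *
        (1 / ((q : ℝ) ^ e * (((q : ℝ) ^ e) ^ 2 - 1)) / ((q : ℝ) ^ e) ^ (n + 2)) ≤ tcLoss q := by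
      rw [Finset.sum_comm]
      refine (Finset.sum_le_sum fun e he => ?_).trans (sum_tcE_le hq2 (rad2 n d))
      rw [Finset.mem_Icc] at he
      rw [← Finset.sum_mul]
      have hQ1 : (1 : ℝ) < (q : ℝ) ^ e := one_lt_pow₀ (by linarith) (by omega)
      have he0 : (0 : ℝ) < e := by exact_mod_cast he.1
      have hQ2 : (0 : ℝ) < ((q : ℝ) ^ e) ^ 2 - 1 := by nlinarith
      refine le_trans (mul_le_mul_of_nonneg_right (Finset.sum_le_sum fun i _ => ?_) (by positivity))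
        (sum_points_le2 hQ1 he.1 n)
      rw [le_div_iff₀ he0, mul_comm]
      have h1 := (card_closedPts hϖ hfin i he.1).2
      rw [hres, ← hq, pow_mul] at h1
      exact_mod_cast h1
    have e2 : (1 : ℝ) / (q : ℝ) ^ ((d + 1) / 2) ≤ 1 / (q : ℝ) ^ (rad2 n d + 1) :=
      one_div_le_one_div_of_le (pow_pos hq0 _) (pow_le_pow_right₀ (by linarith) hrd2)
    have e3 : (0 : ℝ) ≤ (n : ℝ) ^ n * (n * d + 1) ^ (n ^ 2) := by positivity
    rw [Finset.sum_const, Finset.sum_const, Finset.card_univ, Fintype.card_fin, nsmul_eq_mul,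
      nsmul_eq_mul]
    have e4 : (n : ℝ) ^ n * (n * d + 1) ^ (n ^ 2) / (q : ℝ) ^ ((d + 1) / 2) ≤
        (n : ℝ) ^ n * (n * d + 1) ^ (n ^ 2) / (q : ℝ) ^ (rad2 n d + 1) := by
      rw [div_eq_mul_one_div, div_eq_mul_one_div _ ((q : ℝ) ^ (rad2 n d + 1))]
      exact mul_le_mul_of_nonneg_left e2 e3
    have e5 : etaK n d / (q : ℝ) ^ (rad2 n d + 1) =
        ((n + 1 : ℕ) : ℝ) * ((n : ℝ) ^ n * (n * d + 1) ^ (n ^ 2) / (q : ℝ) ^ (rad2 n d + 1)) +
        ((n + 1 : ℕ) : ℝ) * ((n * d + 1 : ℝ) ^ (n ^ 2) / (q : ℝ) ^ (rad2 n d + 1)) := by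
      rw [etaK]
      push_cast
      field_simp
    have e6 := mul_le_mul_of_nonneg_left e4 (Nat.cast_nonneg (α := ℝ) (n + 1))
    linarith

/-- The classes modulo the fourth power of `P` of the good forms. -/
def tcClass {E : Type} [Field E] [NumberField E] {n d : ℕ}
    (ϖ : ∀ P : HeightOneSpectrum (𝓞 E), locRing E P) (P : HeightOneSpectrum (𝓞 E)) :
    Set (Mono n d → 𝓞 E ⧸ P.asIdeal ^ 3) :=
  {a | ∃ v : Mono n d → 𝓞 E, (∀ μ, Ideal.Quotient.mk (P.asIdeal ^ 3) (v μ) = a μ) ∧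
    TcForm (ϖ P) (form fun μ => algebraMap (𝓞 E) (locRing E P) (v μ))}

theorem redk_mem_tcClass {E : Type} [Field E] [NumberField E] {s : ℕ}
    (b : Module.Basis (Fin s) ℤ (𝓞 E)) {n d : ℕ}
    (ϖ : ∀ P : HeightOneSpectrum (𝓞 E), locRing E P) (hϖ : ∀ P, Irreducible (ϖ P))
    (P : HeightOneSpectrum (𝓞 E)) (u : Mono n d × Fin s → ℤ) :
    redk b 3 P u ∈ tcClass ϖ P ↔
      TcForm (ϖ P) (form fun μ => algebraMap (𝓞 E) (locRing E P) (coeffs b u μ)) := by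
  constructor
  · rintro ⟨v, hv, hodp⟩
    have h1 : ∀ μ, ∃ w : locRing E P, algebraMap (𝓞 E) (locRing E P) (coeffs b u μ) =
        algebraMap (𝓞 E) (locRing E P) (v μ) + ϖ P ^ 3 * w := by
      intro μ
      have h2 : coeffs b u μ - v μ ∈ P.asIdeal ^ 3 := by
        rw [← Ideal.Quotient.eq, hv μ]
        rfl
      have h3 := Ideal.mem_map_of_mem (algebraMap (𝓞 E) (locRing E P)) h2
      rw [Ideal.map_pow, IsLocalization.AtPrime.map_eq_maximalIdeal P.asIdeal (locRing E P),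
        ← span_uniformizer P (hϖ P), Ideal.span_singleton_pow, Ideal.mem_span_singleton] at h3
      obtain ⟨w, hw⟩ := h3
      exact ⟨w, by rw [← hw, map_sub]; ring⟩
    choose w hw using h1
    refine hodp.congr (g := form w) ?_
    simp only [hw, form_add]
    congr 1
    simp only [form, Finset.mul_sum, C_mul, C_pow, mul_assoc]
  · intro h
    exact ⟨coeffs b u, fun μ => rfl, h⟩

/-- From `tendsto_prop_redk`, `redk_hom`, `local_UD2`, `TcForm.congr`,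
`prod_ge_of_ge`. -/
theorem small_primes2 {E : Type} [Field E] [NumberField E] {s : ℕ}
    (b : Module.Basis (Fin s) ℤ (𝓞 E)) {n d : ℕ} (hn : 1 ≤ n) (hd : 1 ≤ d)
    (T : Finset (HeightOneSpectrum (𝓞 E))) (ϖ : ∀ P : HeightOneSpectrum (𝓞 E), locRing E P)
    (hϖ : ∀ P, Irreducible (ϖ P)) {ε : ℝ}
    (hε : ∑ P ∈ T, etaK n d / (Nat.card (𝓞 E ⧸ P.asIdeal) : ℝ) ^ (rad2 n d + 1) ≤ ε) :
    UD (fun u : Mono n d × Fin s → ℤ => ¬ ∀ P ∈ T, TcForm (ϖ P)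
        (form fun μ => algebraMap (𝓞 E) (locRing E P) (coeffs b u μ)))
      (1 - tcC E + ε) := by
  classical
  have h1 := tendsto_prop_redk b (ι := Mono n d) (k := 3) (by norm_num) T (tcClass ϖ)
  have hfinq : ∀ P : HeightOneSpectrum (𝓞 E), Finite (Mono n d → 𝓞 E ⧸ P.asIdeal ^ 3) := by
    intro P
    have := (redk_hom b (ι := Mono n d) (k := 3) (by norm_num) P).1
    infer_instance
  have hpos : ∀ P : HeightOneSpectrum (𝓞 E),
      (0 : ℝ) < Nat.card (Mono n d → 𝓞 E ⧸ P.asIdeal ^ 3) := by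
    intro P
    have := hfinq P
    exact_mod_cast Nat.card_pos
  have hloc : ∀ P : HeightOneSpectrum (𝓞 E), (1 - tcLoss (Nat.card (𝓞 E ⧸ P.asIdeal))) -
      etaK n d / (Nat.card (𝓞 E ⧸ P.asIdeal) : ℝ) ^ (rad2 n d + 1) ≤
      (Nat.card (tcClass (n := n) (d := d) ϖ P) : ℝ) /
        Nat.card (Mono n d → 𝓞 E ⧸ P.asIdeal ^ 3) := by
    intro P
    have h2 := tendsto_prop_redk b (ι := Mono n d) (k := 3) (by norm_num) {P} (tcClass ϖ)
    rw [Finset.prod_singleton] at h2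
    have h3 := (tendsto_const_nhds (x := (1 : ℝ))).sub h2
    have h4 := (local_UD2 b hn hd P (hϖ P)).le_of_tendsto (h3.congr fun H => ?_)
    · linarith
    · rw [← prop_compl]
      congr 1
      funext u
      simp only [Finset.mem_singleton, forall_eq, redk_mem_tcClass b ϖ hϖ P u]
  have hloss : ∀ P : HeightOneSpectrum (𝓞 E),
      tcLoss (Nat.card (𝓞 E ⧸ P.asIdeal)) ≤ 1 := by
    intro P
    have h2 := two_le_norm P
    refine (tcLoss_le h2).trans ?_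
    rw [div_le_one (by positivity)]
    have h3 : (2 : ℝ) ^ 5 ≤ (Nat.card (𝓞 E ⧸ P.asIdeal) : ℝ) ^ 5 :=
      pow_le_pow_left₀ (by norm_num) h2 5
    linarith
  have h5 := prod_ge_of_ge T (μ := fun P => (Nat.card (tcClass (n := n) (d := d) ϖ P) : ℝ) /
      Nat.card (Mono n d → 𝓞 E ⧸ P.asIdeal ^ 3))
    (a := fun P => 1 - tcLoss (Nat.card (𝓞 E ⧸ P.asIdeal)))
    (η := fun P => etaK n d / (Nat.card (𝓞 E ⧸ P.asIdeal) : ℝ) ^ (rad2 n d + 1))
    (fun P _ => by positivity)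
    (fun P _ => by
      have := hfinq P
      rw [div_le_one (hpos P)]
      exact_mod_cast Nat.card_le_card_of_injective (Subtype.val : tcClass ϖ P → _)
        Subtype.val_injective)
    (fun P _ => by have := hloss P; linarith)
    (fun P _ => by have := tcLoss_nonneg (two_le_norm P); linarith)
    (fun P _ => by
      rw [etaK]
      have := two_le_norm P
      positivity)
    (fun P _ => hloc P)
  have h6 := tcC_le_prod E T
  refine (UD.of_tendsto ((tendsto_const_nhds (x := (1 : ℝ))).sub h1 |>.congr fun H => ?_)).mono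
    (fun u hu => hu) ?_
  · rw [← prop_compl]
    congr 1
    funext u
    simp only [redk_mem_tcClass b ϖ hϖ]
  · linarith

end Pool.Agent.Lib.MP_6a3dac_ag.Maj
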