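import Pool.Agent.Lib.MP_6a3dac_ag.Maj.Num2

/-!
# A lower bound for the constant in terms of the degree of the number field
-/

set_option autoImplicit false

namespace Pool.Agent.Lib.MP_6a3dac_ag.Maj

open NumberField IsDedekindDomain

lemma r10_prime {E : Type} [Field E] [NumberField E] (P : HeightOneSpectrum (𝓞 E)) :
    (Ideal.absNorm (r3_under P)).Prime := by
  have hmax := r3_under_isMaximal P
  have h1 := Int.ideal_span_absNorm_eq_self (r3_under P)
  have h2 : (Ideal.span {((Ideal.absNorm (r3_under P) : ℕ) : ℤ)}).IsPrime := by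
    rw [h1]
    exact hmax.isPrime
  rw [Ideal.span_singleton_prime (by exact_mod_cast (r3_norm_pos P).ne')] at h2
  exact Nat.prime_iff_prime_int.2 h2

lemma r10_g_le_one {p : ℕ} (hp : p.Prime) : r8_g p ≤ 1 := by
  unfold r8_g
  split_ifs with h
  · norm_num
  · have h3 : 3 ≤ p := by
      have := hp.two_le
      omega
    have h5 : (3 : ℝ) ≤ (p : ℝ) := by exact_mod_cast h3
    have h4 : (3 : ℝ) ^ 5 ≤ (p : ℝ) ^ 5 := by gcongr
    have h6 : 1 / (p : ℝ) ^ 5 ≤ 1 / 3 ^ 5 := one_div_le_one_div_of_le (by norm_num) h4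
    linarith

/-- The constant is larger than `(9 / 10) ^ [E : ℚ]`. -/
theorem tcC_gt (E : Type) [Field E] [NumberField E] :
    (9 / 10 : ℝ) ^ Module.finrank ℚ E < tcC E := by
  classical
  have hmul : Multipliable fun P : HeightOneSpectrum (𝓞 E) =>
      (1 - tcLoss (Nat.card (𝓞 E ⧸ P.asIdeal))) :=
    Real.multipliable_of_summable_log r8_pos r8_summable_log
  have hlim := hmul.hasProd
  have key : ∀ u : Finset (HeightOneSpectrum (𝓞 E)),
      (1 - (85 / 1000 + 5 / 2 * (1 / 243 + 1 / 3125 + 1 / 16807 + 1 / 33000) : ℝ)) ^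
        Module.finrank ℚ E ≤ ∏ P ∈ u, (1 - tcLoss (Nat.card (𝓞 E ⧸ P.asIdeal))) := by
    intro u
    set S : Finset ℕ := u.image (fun P => Ideal.absNorm (r3_under P)) with hS
    have hSp : ∀ p ∈ S, p.Prime := by
      intro p hp
      obtain ⟨P, _, rfl⟩ := Finset.mem_image.1 hp
      exact r10_prime P
    have h1 : ∏ P ∈ u, (1 - r8_g (Ideal.absNorm (r3_under P))) ≤
        ∏ P ∈ u, (1 - tcLoss (Nat.card (𝓞 E ⧸ P.asIdeal))) := by
      refine Finset.prod_le_prod (fun P _ => ?_) fun P _ => ?_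
      · linarith [r10_g_le_one (r10_prime P)]
      · linarith [r8_le_g (r10_prime P) (r3_norm_le P)]
    refine le_trans ?_ h1
    rw [Finset.prod_comp (fun p : ℕ => 1 - r8_g p) (fun P => Ideal.absNorm (r3_under P)), ← hS]
    have h2 : ∏ p ∈ S, (1 - r8_g p) ^ Module.finrank ℚ E ≤
        ∏ p ∈ S, (1 - r8_g p) ^ (u.filter fun P => Ideal.absNorm (r3_under P) = p).card := by
      refine Finset.prod_le_prod (fun p hp => ?_) fun p hp => ?_
      · exact pow_nonneg (by linarith [r10_g_le_one (hSp p hp)]) _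
      · exact pow_le_pow_of_le_one (by linarith [r10_g_le_one (hSp p hp)])
          (by linarith [r8_g_nonneg p]) (r3_fiber u p)
    refine le_trans ?_ h2
    rw [Finset.prod_pow]
    refine pow_le_pow_left₀ (by norm_num) ?_ _
    have h3 : 1 - ∑ p ∈ S, r8_g p ≤ ∏ p ∈ S, (1 - r8_g p) := by
      have h4 := r5_weier (T := {p : ℕ // p.Prime}) (S.subtype Nat.Prime) (fun p => r8_g p.1)
        (fun p => r8_g_nonneg p.1) fun p => r10_g_le_one p.2
      rw [Finset.sum_subtype_of_mem (f := fun p => r8_g p) hSp,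
        Finset.prod_subtype_of_mem (f := fun p => 1 - r8_g p) hSp] at h4
      exact h4
    have h5 := r8_primes S hSp
    linarith
  have h9 : (1 - (85 / 1000 + 5 / 2 * (1 / 243 + 1 / 3125 + 1 / 16807 + 1 / 33000) : ℝ)) ^
      Module.finrank ℚ E ≤ tcC E := ge_of_tendsto' hlim key
  refine lt_of_lt_of_le ?_ h9
  exact pow_lt_pow_left₀ (by norm_num) (by norm_num) (Module.finrank_pos (R := ℚ) (M := E)).ne'

end Pool.Agent.Lib.MP_6a3dac_ag.Maj
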