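import Pool.Agent.Lib.MP_6a3dac_ag.Maj.FinalP
import Pool.Agent.Lib.MP_6a3dac_ag.Maj.Num3
import Pool.Agent.Lib.MP_6a3dac_ag.Maj.Crit

/-!
# Most hypersurfaces of large degree have regular models: the final form
-/

set_option autoImplicit false

namespace Pool.Agent.Lib.MP_6a3dac_ag.Maj

open MvPolynomial NumberField AlgebraicGeometry Filter
open Pool.Agent.Lib.MP_6a3dac_ag.DNF

/-- The hypersurface over `E` defined by the form with the coefficients `a` is smooth and has a
regular proper flat model over the ring of integers of `E`. -/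
def HasModel {E : Type} [Field E] [NumberField E] {n d : ℕ} (a : Mono n d → 𝓞 E) : Prop :=
  Smooth (hProjTo (DNF.formIdeal fun μ => algebraMap (𝓞 E) E (a μ))) ∧
    DNF.HasRegularModel E (hProjTo (DNF.formIdeal fun μ => algebraMap (𝓞 E) E (a μ)))

open Classical in
/-- The proportion of the families with the property `S` among the families of elements of `B` whose
coordinates in the basis `b` are at most `H` in absolute value. -/
noncomputable def proportion {ι B : Type} [Fintype ι] [DecidableEq ι] [CommRing B] {s : ℕ}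
    (b : Module.Basis (Fin s) ℤ B) (S : (ι → B) → Prop) (H : ℕ) : ℝ :=
  (((box (ι × Fin s) H).filter fun u => S (DNF.coeffs b u)).card : ℝ) / (box (ι × Fin s) H).card

theorem most_hypersurfaces (E : Type) [Field E] [NumberField E] (s : ℕ)
    (b : Module.Basis (Fin s) ℤ (𝓞 E)) (n : ℕ) (hn : 2 ≤ n) :
    (∀ (d : ℕ) (a : Mono n d → 𝓞 E), 2 ≤ d → NoSingular E a → CorankOne E a → HasModel a) ∧
    (9 / 10 : ℝ) ^ Module.finrank ℚ E < tcC E ∧
    ∀ ε : ℝ, 0 < ε → ∃ d₀ : ℕ, ∀ d : ℕ, d₀ ≤ d → ∀ᶠ H : ℕ in atTop,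
      tcC E - ε ≤ proportion b (fun a : Mono n d → 𝓞 E => HasModel a) H := by
  refine ⟨fun d a hd h1 h2 => model_of_corankOne hn hd h1 h2, tcC_gt E, fun ε hε => ?_⟩
  obtain ⟨d₀, hd₀⟩ := tc_density E b hn hε
  refine ⟨d₀, fun d hd => (hd₀ d hd).mono fun H hH => ?_⟩
  rw [Sys.prop] at hH
  rw [proportion]
  exact hH

end Pool.Agent.Lib.MP_6a3dac_ag.Maj
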