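import Mathlib

/-!
# The constant
-/

set_option autoImplicit false

namespace Pool.Agent.Lib.MP_6a3dac_ag.Maj

open NumberField IsDedekindDomain

/-- The loss at the closed points of degree `e` over a field with `q` elements. -/
noncomputable def lossE (q : ℝ) (e : ℕ) : ℝ := (q ^ e + 1) / (e * (q ^ e) ^ 4 * (q ^ e - 1))

/-- The loss at a prime with residue field of `q` elements. -/
noncomputable def loss (q : ℝ) : ℝ := ∑' e : ℕ, lossE q (e + 1)

/-- The product of the local factors. -/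
noncomputable def majC (E : Type) [Field E] [NumberField E] : ℝ :=
  ∏' P : HeightOneSpectrum (𝓞 E), (1 - loss (Nat.card (𝓞 E ⧸ P.asIdeal)))

theorem lossE_nonneg {q : ℝ} (hq : 2 ≤ q) (e : ℕ) : 0 ≤ lossE q e := by
  have h1 : (1 : ℝ) ≤ q ^ e := one_le_pow₀ (by linarith)
  unfold lossE
  apply div_nonneg (by linarith)
  apply mul_nonneg (by positivity) (by linarith)

/-- `lossE q e ≤ 3 / (e * q ^ (4e))`. -/
theorem r1_lossE_le {q : ℝ} (hq : 2 ≤ q) (e : ℕ) :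
    lossE q (e + 1) ≤ 3 / ((e + 1) * (q ^ 4) ^ (e + 1)) := by
  have h1 : (2 : ℝ) ≤ q ^ (e + 1) := by
    calc (2 : ℝ) ≤ q := hq
      _ = q ^ 1 := (pow_one q).symm
      _ ≤ q ^ (e + 1) := pow_le_pow_right₀ (by linarith) (by omega)
  unfold lossE
  set Q := q ^ (e + 1) with hQ
  have h2 : (q ^ 4) ^ (e + 1) = Q ^ 4 := by rw [hQ, ← pow_mul, ← pow_mul, mul_comm]
  rw [h2]
  have he : (0 : ℝ) < (e : ℝ) + 1 := by positivity
  have hQ0 : (0 : ℝ) < Q := by linarith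
  have hQ1 : (0 : ℝ) < Q - 1 := by linarith
  push_cast
  rw [div_le_div_iff₀ (by positivity) (by positivity)]
  have h3 : (Q + 1) ≤ 3 * (Q - 1) := by linarith
  calc (Q + 1) * ((e + 1) * Q ^ 4) ≤ (3 * (Q - 1)) * ((e + 1) * Q ^ 4) :=
        mul_le_mul_of_nonneg_right h3 (by positivity)
    _ = 3 * ((e + 1) * Q ^ 4 * (Q - 1)) := by ring

theorem r1_geom {q : ℝ} (hq : 2 ≤ q) :
    HasSum (fun e : ℕ => 3 * (1 / q ^ 4) ^ (e + 1)) (3 * (1 / q ^ 4 / (1 - 1 / q ^ 4))) := by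
  have hq4 : (16 : ℝ) ≤ q ^ 4 := by
    calc (16 : ℝ) = 2 ^ 4 := by norm_num
      _ ≤ q ^ 4 := pow_le_pow_left₀ (by norm_num) hq 4
  have h0 : 0 ≤ 1 / q ^ 4 := by positivity
  have h1 : 1 / q ^ 4 < 1 := by
    rw [div_lt_one (by linarith)]; linarith
  have h := (hasSum_geometric_of_lt_one h0 h1).mul_left (3 * (1 / q ^ 4))
  have e1 : (fun e : ℕ => 3 * (1 / q ^ 4) ^ (e + 1)) = fun e : ℕ => 3 * (1 / q ^ 4) * (1 / q ^ 4) ^ e := by
    funext e; rw [pow_succ]; ring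
  rw [e1]
  have e2 : 3 * (1 / q ^ 4 / (1 - 1 / q ^ 4)) = 3 * (1 / q ^ 4) * (1 - 1 / q ^ 4)⁻¹ := by
    rw [div_eq_mul_inv (1 / q ^ 4)]; ring
  rw [e2]
  exact h

theorem r1_lossE_le_geom {q : ℝ} (hq : 2 ≤ q) (e : ℕ) :
    lossE q (e + 1) ≤ 3 * (1 / q ^ 4) ^ (e + 1) := by
  refine (r1_lossE_le hq e).trans ?_
  have hq0 : 0 < q := by linarith
  have he : (1 : ℝ) ≤ (e : ℝ) + 1 := by linarith [Nat.cast_nonneg (α := ℝ) e]
  rw [one_div, inv_pow, ← div_eq_mul_inv]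
  apply div_le_div_of_nonneg_left (by norm_num) (by positivity)
  calc (q ^ 4) ^ (e + 1) = 1 * (q ^ 4) ^ (e + 1) := (one_mul _).symm
    _ ≤ (e + 1) * (q ^ 4) ^ (e + 1) := mul_le_mul_of_nonneg_right he (by positivity)

theorem summable_lossE {q : ℝ} (hq : 2 ≤ q) : Summable fun e : ℕ => lossE q (e + 1) :=
  Summable.of_nonneg_of_le (fun e => lossE_nonneg hq (e + 1)) (fun e => r1_lossE_le_geom hq e)
    (r1_geom hq).summable

theorem loss_nonneg {q : ℝ} (hq : 2 ≤ q) : 0 ≤ loss q :=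
  tsum_nonneg fun e => lossE_nonneg hq (e + 1)

theorem loss_le {q : ℝ} (hq : 2 ≤ q) : loss q ≤ 16 / 5 / q ^ 4 := by
  have h := (summable_lossE hq).tsum_le_tsum (fun e => r1_lossE_le_geom hq e) (r1_geom hq).summable
  rw [(r1_geom hq).tsum_eq] at h
  refine h.trans ?_
  have hq4 : (16 : ℝ) ≤ q ^ 4 := by
    calc (16 : ℝ) = 2 ^ 4 := by norm_num
      _ ≤ q ^ 4 := pow_le_pow_left₀ (by norm_num) hq 4
  set Q := q ^ 4 with hQ
  have hQ0 : 0 < Q := by linarith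
  have hQ1 : (0 : ℝ) < Q - 1 := by linarith
  have e1 : 3 * (1 / Q / (1 - 1 / Q)) = 3 / (Q - 1) := by
    field_simp
  rw [e1, div_div, div_le_div_iff₀ hQ1 (by positivity)]
  nlinarith

theorem prod_ge_of_ge {T : Type} (s : Finset T) {μ a η : T → ℝ} (hμ0 : ∀ t ∈ s, 0 ≤ μ t)
    (hμ1 : ∀ t ∈ s, μ t ≤ 1) (ha0 : ∀ t ∈ s, 0 ≤ a t) (ha1 : ∀ t ∈ s, a t ≤ 1)
    (hη : ∀ t ∈ s, 0 ≤ η t) (h : ∀ t ∈ s, a t - η t ≤ μ t) :
    ∏ t ∈ s, a t - ∑ t ∈ s, η t ≤ ∏ t ∈ s, μ t := by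
  classical
  induction s using Finset.induction_on with
  | empty => simp
  | insert t s ht ih =>
    rw [Finset.prod_insert ht, Finset.prod_insert ht, Finset.sum_insert ht]
    have ih' := ih (fun t h => hμ0 t (Finset.mem_insert_of_mem h))
      (fun t h => hμ1 t (Finset.mem_insert_of_mem h)) (fun t h => ha0 t (Finset.mem_insert_of_mem h))
      (fun t h => ha1 t (Finset.mem_insert_of_mem h)) (fun t h => hη t (Finset.mem_insert_of_mem h))
      (fun t h' => h t (Finset.mem_insert_of_mem h'))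
    have t0 := Finset.mem_insert_self t s
    have hA0 : 0 ≤ ∏ t ∈ s, a t := Finset.prod_nonneg fun t h => ha0 t (Finset.mem_insert_of_mem h)
    have hA1 : ∏ t ∈ s, a t ≤ 1 := Finset.prod_le_one (fun t h => ha0 t (Finset.mem_insert_of_mem h))
      fun t h => ha1 t (Finset.mem_insert_of_mem h)
    have hS : 0 ≤ ∑ t ∈ s, η t := Finset.sum_nonneg fun t h => hη t (Finset.mem_insert_of_mem h)
    have hM0 : 0 ≤ ∏ t ∈ s, μ t := Finset.prod_nonneg fun t h => hμ0 t (Finset.mem_insert_of_mem h)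
    have h1 := h t t0
    have h2 := hμ0 t t0
    have h3 := hμ1 t t0
    have h5 := hη t t0
    set A := ∏ t ∈ s, a t
    set M := ∏ t ∈ s, μ t
    set S := ∑ t ∈ s, η t
    -- a t * A - (η t + S) ≤ μ t * M
    have h6 : a t * A ≤ (μ t + η t) * A := mul_le_mul_of_nonneg_right (by linarith) hA0
    have h7 : μ t * (A - S) ≤ μ t * M := mul_le_mul_of_nonneg_left ih' h2
    have h8 : η t * A ≤ η t := by nlinarith
    have h9 : μ t * S ≤ S := by nlinarith
    nlinarith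

lemma r3_finite {E : Type} [Field E] [NumberField E] (P : HeightOneSpectrum (𝓞 E)) :
    Finite (𝓞 E ⧸ P.asIdeal) :=
  Ideal.finiteQuotientOfFreeOfNeBot P.asIdeal P.ne_bot

theorem two_le_norm {E : Type} [Field E] [NumberField E] (P : HeightOneSpectrum (𝓞 E)) :
    (2 : ℝ) ≤ Nat.card (𝓞 E ⧸ P.asIdeal) := by
  have h1 := r3_finite P
  have h2 : Nontrivial (𝓞 E ⧸ P.asIdeal) := Ideal.Quotient.nontrivial_iff.2 P.isPrime.ne_top
  have h3 : 1 < Nat.card (𝓞 E ⧸ P.asIdeal) := Finite.one_lt_card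
  exact_mod_cast h3

/-- the prime of `ℤ` below `P` -/
noncomputable def r3_under {E : Type} [Field E] [NumberField E] (P : HeightOneSpectrum (𝓞 E)) :
    Ideal ℤ := P.asIdeal.comap (algebraMap ℤ (𝓞 E))

lemma r3_under_ne_bot {E : Type} [Field E] [NumberField E] (P : HeightOneSpectrum (𝓞 E)) :
    r3_under P ≠ ⊥ :=
  Ideal.IsIntegral.comap_ne_bot ℤ P.ne_bot

lemma r3_under_isMaximal {E : Type} [Field E] [NumberField E] (P : HeightOneSpectrum (𝓞 E)) :
    (r3_under P).IsMaximal := by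
  have := P.isMaximal
  exact Ideal.isMaximal_comap_of_isIntegral_of_isMaximal P.asIdeal

lemma r3_norm_le {E : Type} [Field E] [NumberField E] (P : HeightOneSpectrum (𝓞 E)) :
    (Ideal.absNorm (r3_under P)) ≤ Nat.card (𝓞 E ⧸ P.asIdeal) := by
  have h1 := r3_finite P
  rw [Ideal.absNorm_apply, Submodule.cardQuot_apply]
  exact Nat.card_le_card_of_injective _
    (Ideal.quotientMap_injective (I := P.asIdeal) (f := algebraMap ℤ (𝓞 E)))

lemma r3_norm_pos {E : Type} [Field E] [NumberField E] (P : HeightOneSpectrum (𝓞 E)) :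
    0 < (Ideal.absNorm (r3_under P)) := by
  rw [Nat.pos_iff_ne_zero, Ne, Ideal.absNorm_eq_zero_iff]
  exact r3_under_ne_bot P

lemma r3_fiber {E : Type} [Field E] [NumberField E]
    (u : Finset (HeightOneSpectrum (𝓞 E))) (b : ℕ) :
    (u.filter fun P => Ideal.absNorm (r3_under P) = b).card ≤ Module.finrank ℚ E := by
  rcases (u.filter fun P => Ideal.absNorm (r3_under P) = b).eq_empty_or_nonempty with h | ⟨P0, h⟩
  · rw [h]
    simp
  · have hP0 := (Finset.mem_filter.1 h).2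
    have hmax := r3_under_isMaximal P0
    refine le_trans ?_ (Ideal.card_primesOverFinset_le_finrank (𝓞 E) ℚ E
      (p := r3_under P0) (r3_under_ne_bot P0))
    refine Finset.card_le_card_of_injOn (fun P => P.asIdeal) ?_ ?_
    · intro P hP
      have hP' := (Finset.mem_filter.1 hP).2
      rw [Finset.mem_coe, IsDedekindDomain.mem_primesOverFinset_iff (r3_under_ne_bot P0)]
      refine ⟨P.isPrime, ⟨?_⟩⟩
      have h1 : r3_under P = r3_under P0 := by
        rw [← Int.ideal_span_absNorm_eq_self (r3_under P),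
          ← Int.ideal_span_absNorm_eq_self (r3_under P0), hP', hP0]
      rw [← h1]
      rfl
    · intro P _ P' _ h2
      exact HeightOneSpectrum.ext h2

/-- There are at most `[E : ℚ]` primes over each rational prime `p`, with norms at least
`p`. -/
theorem summable_norm (E : Type) [Field E] [NumberField E] :
    Summable fun P : HeightOneSpectrum (𝓞 E) => 1 / (Nat.card (𝓞 E ⧸ P.asIdeal) : ℝ) ^ 2 := by
  classical
  have hs : Summable fun n : ℕ => 1 / (n : ℝ) ^ 2 := Real.summable_one_div_nat_pow.2 (by norm_num)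
  refine summable_of_sum_le (c := Module.finrank ℚ E * ∑' n : ℕ, 1 / (n : ℝ) ^ 2)
    (fun P => by positivity) fun u => ?_
  calc ∑ P ∈ u, 1 / (Nat.card (𝓞 E ⧸ P.asIdeal) : ℝ) ^ 2
      ≤ ∑ P ∈ u, 1 / (Ideal.absNorm (r3_under P) : ℝ) ^ 2 := by
        refine Finset.sum_le_sum fun P _ => ?_
        have h1 : (0 : ℝ) < (Ideal.absNorm (r3_under P) : ℝ) := by exact_mod_cast r3_norm_pos P
        have h2 : (Ideal.absNorm (r3_under P) : ℝ) ≤ (Nat.card (𝓞 E ⧸ P.asIdeal) : ℝ) := by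
          exact_mod_cast r3_norm_le P
        gcongr
    _ = ∑ b ∈ u.image (fun P => Ideal.absNorm (r3_under P)),
          ((u.filter fun P => Ideal.absNorm (r3_under P) = b).card : ℝ) * (1 / (b : ℝ) ^ 2) := by
        rw [Finset.sum_comp (fun b : ℕ => 1 / (b : ℝ) ^ 2) (fun P => Ideal.absNorm (r3_under P))]
        simp [nsmul_eq_mul]
    _ ≤ ∑ b ∈ u.image (fun P => Ideal.absNorm (r3_under P)),
          (Module.finrank ℚ E : ℝ) * (1 / (b : ℝ) ^ 2) := by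
        refine Finset.sum_le_sum fun b _ => ?_
        have := r3_fiber u b
        gcongr
    _ = Module.finrank ℚ E * ∑ b ∈ u.image (fun P => Ideal.absNorm (r3_under P)),
          (1 / (b : ℝ) ^ 2) := by rw [Finset.mul_sum]
    _ ≤ Module.finrank ℚ E * ∑' n : ℕ, 1 / (n : ℝ) ^ 2 := by
        gcongr
        exact hs.sum_le_tsum _ (fun n _ => by positivity)

/-! ### R4 -/

section R4

variable {E : Type} [Field E] [NumberField E]

lemma r4_loss_nonneg (P : HeightOneSpectrum (𝓞 E)) :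
    0 ≤ loss (Nat.card (𝓞 E ⧸ P.asIdeal)) := loss_nonneg (two_le_norm P)

lemma r4_loss_le (P : HeightOneSpectrum (𝓞 E)) :
    loss (Nat.card (𝓞 E ⧸ P.asIdeal)) ≤ 1 / 5 := by
  have h1 := two_le_norm P
  refine (loss_le h1).trans ?_
  have h2 : (2 : ℝ) ^ 4 ≤ (Nat.card (𝓞 E ⧸ P.asIdeal) : ℝ) ^ 4 := by gcongr
  rw [div_le_iff₀ (by positivity)]
  linarith

lemma r4_loss_le' (P : HeightOneSpectrum (𝓞 E)) :
    loss (Nat.card (𝓞 E ⧸ P.asIdeal)) ≤ 1 / (Nat.card (𝓞 E ⧸ P.asIdeal) : ℝ) ^ 2 := by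
  have h1 := two_le_norm P
  refine (loss_le h1).trans ?_
  set q : ℝ := (Nat.card (𝓞 E ⧸ P.asIdeal) : ℝ)
  have h2 : (2 : ℝ) ^ 2 ≤ q ^ 2 := by gcongr
  rw [div_le_div_iff₀ (by positivity) (by positivity)]
  nlinarith [sq_nonneg q]

lemma r4_summable : Summable fun P : HeightOneSpectrum (𝓞 E) =>
    loss (Nat.card (𝓞 E ⧸ P.asIdeal)) :=
  Summable.of_nonneg_of_le r4_loss_nonneg r4_loss_le' (summable_norm E)

lemma r4_pos (P : HeightOneSpectrum (𝓞 E)) :
    0 < 1 - loss (Nat.card (𝓞 E ⧸ P.asIdeal)) := by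
  have := r4_loss_le P
  linarith

lemma r4_summable_log : Summable fun P : HeightOneSpectrum (𝓞 E) =>
    Real.log (1 - loss (Nat.card (𝓞 E ⧸ P.asIdeal))) := by
  have h := Real.summable_log_one_add_of_summable (r4_summable (E := E)).neg
  simpa [sub_eq_add_neg] using h

lemma r4_exp : Real.exp (∑' P : HeightOneSpectrum (𝓞 E),
    Real.log (1 - loss (Nat.card (𝓞 E ⧸ P.asIdeal)))) = majC E :=
  Real.rexp_tsum_eq_tprod r4_pos r4_summable_log

end R4

theorem majC_pos (E : Type) [Field E] [NumberField E] : 0 < majC E := by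
  rw [← r4_exp]
  exact Real.exp_pos _

theorem majC_le_prod (E : Type) [Field E] [NumberField E] (T : Finset (HeightOneSpectrum (𝓞 E))) :
    majC E ≤ ∏ P ∈ T, (1 - loss (Nat.card (𝓞 E ⧸ P.asIdeal))) := by
  have h1 : ∏ P ∈ T, (1 - loss (Nat.card (𝓞 E ⧸ P.asIdeal))) =
      Real.exp (∑ P ∈ T, Real.log (1 - loss (Nat.card (𝓞 E ⧸ P.asIdeal)))) := by
    rw [Real.exp_sum]
    exact Finset.prod_congr rfl fun P _ => (Real.exp_log (r4_pos P)).symm
  rw [← r4_exp, h1, Real.exp_le_exp]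
  have h2 := (r4_summable_log (E := E)).neg.sum_le_tsum T (fun P _ => by
    have h3 : Real.log (1 - loss (Nat.card (𝓞 E ⧸ P.asIdeal))) ≤ 0 :=
      Real.log_nonpos (r4_pos P).le (by linarith [r4_loss_nonneg P])
    linarith)
  rw [tsum_neg, Finset.sum_neg_distrib] at h2
  linarith

/-! ### R5 -/

lemma r5_weier {T : Type} (s : Finset T) (a : T → ℝ) (h0 : ∀ t, 0 ≤ a t) (h1 : ∀ t, a t ≤ 1) :
    1 - ∑ t ∈ s, a t ≤ ∏ t ∈ s, (1 - a t) := by
  classical
  induction s using Finset.induction_on with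
  | empty => simp
  | insert t s ht ih =>
    rw [Finset.sum_insert ht, Finset.prod_insert ht]
    have h2 : ∏ t ∈ s, (1 - a t) ≤ 1 :=
      Finset.prod_le_one (fun t _ => by linarith [h1 t]) (fun t _ => by linarith [h0 t])
    nlinarith [h0 t, h1 t]

lemma r5_prime (P : HeightOneSpectrum (𝓞 ℚ)) : (Ideal.absNorm (r3_under P)).Prime := by
  have hmax := r3_under_isMaximal P
  have h1 := Int.ideal_span_absNorm_eq_self (r3_under P)
  have h2 : (Ideal.span {((Ideal.absNorm (r3_under P) : ℕ) : ℤ)}).IsPrime := by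
    rw [h1]
    exact hmax.isPrime
  rw [Ideal.span_singleton_prime (by exact_mod_cast (r3_norm_pos P).ne')] at h2
  exact Nat.prime_iff_prime_int.2 h2

lemma r5_tail (M : ℕ) : ∑ n ∈ Finset.Ico 11 (11 + M), 1 / (n : ℝ) ^ 4 ≤
    1 / 3 * (1 / 1000 - 1 / ((10 : ℝ) + M) ^ 3) := by
  induction M with
  | zero => norm_num
  | succ M ih =>
    rw [← add_assoc, Finset.sum_Ico_succ_top (by omega)]
    have hM : (0 : ℝ) ≤ M := Nat.cast_nonneg M
    have h1 : 1 / (((11 + M : ℕ) : ℝ)) ^ 4 ≤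
        1 / 3 * (1 / ((10 : ℝ) + M) ^ 3 - 1 / ((10 : ℝ) + (M + 1 : ℕ)) ^ 3) := by
      push_cast
      have e1 : (11 : ℝ) + M = (10 + M) + 1 := by ring
      have e2 : (10 : ℝ) + (M + 1) = (10 + M) + 1 := by ring
      rw [e1, e2]
      have hx : (0 : ℝ) < 10 + M := by positivity
      generalize (10 : ℝ) + M = x at hx
      have e3 : 1 / 3 * (1 / x ^ 3 - 1 / (x + 1) ^ 3) =
          ((x + 1) ^ 3 - x ^ 3) / (3 * x ^ 3 * (x + 1) ^ 3) := by
        field_simp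
      rw [e3, div_le_div_iff₀ (by positivity) (by positivity)]
      have h2 : (0 : ℝ) ≤ x ^ 3 * (x + 1) ^ 3 := by positivity
      nlinarith [mul_nonneg h2 hx.le, mul_nonneg (pow_nonneg hx.le 2) (pow_nonneg
        (by linarith : (0 : ℝ) ≤ x + 1) 3), mul_nonneg hx.le (pow_nonneg
        (by linarith : (0 : ℝ) ≤ x + 1) 3), pow_nonneg (by linarith : (0 : ℝ) ≤ x + 1) 3]
    linarith

lemma r5_small : ∀ p < 11, p.Prime → p ∈ ({2, 3, 5, 7} : Finset ℕ) := by decide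

lemma r5_primes (S : Finset ℕ) (hS : ∀ p ∈ S, p.Prime) :
    ∑ p ∈ S, 1 / (p : ℝ) ^ 4 ≤ 1 / 16 + 1 / 81 + 1 / 625 + 1 / 2401 + 1 / 3000 := by
  classical
  obtain ⟨M, hM⟩ : ∃ M, ∀ p ∈ S, p < 11 + M := by
    refine ⟨S.sup id, fun p hp => ?_⟩
    have := Finset.le_sup (f := id) hp
    simp only [id] at this
    omega
  have hsub : S ⊆ {2, 3, 5, 7} ∪ Finset.Ico 11 (11 + M) := by
    intro p hp
    have h1 := hS p hp
    have h2 := hM p hp
    rw [Finset.mem_union, Finset.mem_Ico]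
    by_cases h3 : 11 ≤ p
    · exact Or.inr ⟨h3, h2⟩
    · left
      have h4 : p < 11 := by omega
      exact r5_small p h4 h1
  refine (Finset.sum_le_sum_of_subset_of_nonneg hsub fun _ _ _ => by positivity).trans ?_
  have hdis : Disjoint ({2, 3, 5, 7} : Finset ℕ) (Finset.Ico 11 (11 + M)) := by
    rw [Finset.disjoint_left]
    intro p hp hp'
    rw [Finset.mem_Ico] at hp'
    simp only [Finset.mem_insert, Finset.mem_singleton] at hp
    omega
  rw [Finset.sum_union hdis]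
  have h1 : ∑ p ∈ ({2, 3, 5, 7} : Finset ℕ), 1 / (p : ℝ) ^ 4 =
      1 / 16 + 1 / 81 + 1 / 625 + 1 / 2401 := by
    rw [Finset.sum_insert (by decide), Finset.sum_insert (by decide),
      Finset.sum_insert (by decide), Finset.sum_singleton]
    norm_num
  have h2 := r5_tail M
  have h3 : (0 : ℝ) < 1 / ((10 : ℝ) + M) ^ 3 := by positivity
  rw [h1]
  linarith

/-- The product is at least `1 - ∑ loss p ≥ 1 - 16 / 5 * ∑ 1 / p ^ 4`, over the rational
primes `p`, and `∑ 1 / p ^ 4 ≤ 1 / 2 ^ 4 + 1 / 3 ^ 4 + 1 / 5 ^ 4 + 1 / 7 ^ 4 + 1 / 3000`. -/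
theorem majC_rat : 3 / 4 < majC ℚ := by
  classical
  have hmul : Multipliable fun P : HeightOneSpectrum (𝓞 ℚ) =>
      (1 - loss (Nat.card (𝓞 ℚ ⧸ P.asIdeal))) :=
    Real.multipliable_of_summable_log r4_pos r4_summable_log
  have hlim := hmul.hasProd
  have key : ∀ u : Finset (HeightOneSpectrum (𝓞 ℚ)),
      1 - 16 / 5 * (1 / 16 + 1 / 81 + 1 / 625 + 1 / 2401 + 1 / 3000) ≤
        ∏ P ∈ u, (1 - loss (Nat.card (𝓞 ℚ ⧸ P.asIdeal))) := by
    intro u
    refine le_trans ?_ (r5_weier u _ r4_loss_nonneg fun P => (r4_loss_le P).trans (by norm_num))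
    have h1 : ∑ P ∈ u, loss (Nat.card (𝓞 ℚ ⧸ P.asIdeal)) ≤
        16 / 5 * ∑ P ∈ u, 1 / (Ideal.absNorm (r3_under P) : ℝ) ^ 4 := by
      rw [Finset.mul_sum]
      refine Finset.sum_le_sum fun P _ => ?_
      refine (loss_le (two_le_norm P)).trans ?_
      have h2 : (0 : ℝ) < (Ideal.absNorm (r3_under P) : ℝ) := by exact_mod_cast r3_norm_pos P
      have h3 : (Ideal.absNorm (r3_under P) : ℝ) ≤ (Nat.card (𝓞 ℚ ⧸ P.asIdeal) : ℝ) := by
        exact_mod_cast r3_norm_le P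
      rw [div_eq_mul_one_div]
      gcongr
    have h4 : ∑ P ∈ u, 1 / (Ideal.absNorm (r3_under P) : ℝ) ^ 4 ≤
        ∑ b ∈ u.image (fun P => Ideal.absNorm (r3_under P)), 1 / (b : ℝ) ^ 4 := by
      rw [Finset.sum_comp (fun b : ℕ => 1 / (b : ℝ) ^ 4) (fun P => Ideal.absNorm (r3_under P))]
      refine Finset.sum_le_sum fun b _ => ?_
      have h5 := r3_fiber u b
      rw [Module.finrank_self] at h5
      rw [nsmul_eq_mul]
      have h6 : ((u.filter fun P => Ideal.absNorm (r3_under P) = b).card : ℝ) ≤ 1 := by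
        exact_mod_cast h5
      have h7 : (0 : ℝ) ≤ 1 / (b : ℝ) ^ 4 := by positivity
      nlinarith
    have h8 := r5_primes (u.image (fun P => Ideal.absNorm (r3_under P))) (by
      intro p hp
      obtain ⟨P, _, rfl⟩ := Finset.mem_image.1 hp
      exact r5_prime P)
    linarith
  have h9 : 1 - 16 / 5 * (1 / 16 + 1 / 81 + 1 / 625 + 1 / 2401 + 1 / 3000) ≤ majC ℚ :=
    ge_of_tendsto' hlim key
  refine lt_of_lt_of_le ?_ h9
  norm_num

/-- The number of closed points degrees which are treated separately. -/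
def rad (n d : ℕ) : ℕ := d / (1 + (n + 1) + (n + 1) ^ 2 + (n + 1) ^ 3)

/-- The constant of the error term. -/
noncomputable def etaK (n d : ℕ) : ℝ := (n + 1) * ((n : ℝ) ^ n + 1) * (n * d + 1) ^ (n ^ 2)

/-! ### R6 -/

/-- the length `L` -/
def r6_L (n : ℕ) : ℕ := 1 + (n + 1) + (n + 1) ^ 2 + (n + 1) ^ 3

lemma r6_eta_le (n d : ℕ) : etaK n d ≤
    (n + 1) * ((n : ℝ) ^ n + 1) * (n * r6_L n + 1) ^ (n ^ 2) *
      ((rad n d + 1 : ℕ) : ℝ) ^ (n ^ 2) := by
  have hd : d ≤ r6_L n * (rad n d + 1) := by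
    have h1 : 0 < r6_L n := by unfold r6_L; positivity
    have h2 : rad n d = d / r6_L n := rfl
    rw [h2]
    exact (Nat.lt_mul_div_succ d h1).le
  have hd' : (d : ℝ) ≤ (r6_L n : ℝ) * ((rad n d + 1 : ℕ) : ℝ) := by exact_mod_cast hd
  have h1 : (1 : ℝ) ≤ ((rad n d + 1 : ℕ) : ℝ) := by
    push_cast
    linarith [(Nat.cast_nonneg (rad n d) : (0 : ℝ) ≤ _)]
  have h2 : (n : ℝ) * d + 1 ≤ (n * r6_L n + 1) * ((rad n d + 1 : ℕ) : ℝ) := by
    have h3 : (n : ℝ) * d ≤ n * (r6_L n * ((rad n d + 1 : ℕ) : ℝ)) := by gcongr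
    nlinarith
  unfold etaK
  rw [mul_assoc ((n + 1 : ℝ) * ((n : ℝ) ^ n + 1)), ← mul_pow]
  gcongr

lemma r6_lim (k : ℕ) : Filter.Tendsto (fun r : ℕ => ((r + 1 : ℕ) : ℝ) ^ k * (1 / 2) ^ (r + 1))
    Filter.atTop (nhds 0) :=
  (tendsto_pow_const_mul_const_pow_of_abs_lt_one k (r := (1 / 2 : ℝ))
    (by rw [abs_of_pos (by norm_num)]; norm_num)).comp (Filter.tendsto_add_atTop_nat 1)

/-- From `summable_norm`, `two_le_norm`. -/
theorem eta_small (E : Type) [Field E] [NumberField E] (n : ℕ) {ε : ℝ} (hε : 0 < ε) :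
    ∃ d₀, ∀ d, d₀ ≤ d → ∀ T : Finset (HeightOneSpectrum (𝓞 E)),
      ∑ P ∈ T, etaK n d / (Nat.card (𝓞 E ⧸ P.asIdeal) : ℝ) ^ (rad n d + 1) ≤ ε := by
  set S : ℝ := ∑' P : HeightOneSpectrum (𝓞 E), 1 / (Nat.card (𝓞 E ⧸ P.asIdeal) : ℝ) ^ 2 with hS
  have hS0 : 0 ≤ S := tsum_nonneg fun P => by positivity
  set C : ℝ := (n + 1) * ((n : ℝ) ^ n + 1) * (n * r6_L n + 1) ^ (n ^ 2) with hC
  have hC0 : 0 ≤ C := by positivity
  have h1 := (r6_lim (n ^ 2)).const_mul (4 * C * S)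
  rw [mul_zero] at h1
  obtain ⟨r₀, hr₀⟩ := Filter.eventually_atTop.1 (h1.eventually_le_const hε)
  refine ⟨r6_L n * (r₀ + 1), fun d hd T => ?_⟩
  have hL : 0 < r6_L n := by unfold r6_L; positivity
  have hr : r₀ + 1 ≤ rad n d := by
    have h2 : rad n d = d / r6_L n := rfl
    rw [h2, Nat.le_div_iff_mul_le hL, mul_comm]
    exact hd
  have h3 := hr₀ (rad n d) (by omega)
  generalize hrad : rad n d = r at hr h3
  have h4 : ∀ P ∈ T, etaK n d / (Nat.card (𝓞 E ⧸ P.asIdeal) : ℝ) ^ (r + 1) ≤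
      (4 * C * (((r + 1 : ℕ) : ℝ) ^ (n ^ 2) * (1 / 2) ^ (r + 1))) *
        (1 / (Nat.card (𝓞 E ⧸ P.asIdeal) : ℝ) ^ 2) := by
    intro P _
    have hq := two_le_norm P
    have heta := r6_eta_le n d
    rw [hrad, ← hC] at heta
    generalize (Nat.card (𝓞 E ⧸ P.asIdeal) : ℝ) = q at hq
    obtain ⟨m, rfl⟩ : ∃ m, r = m + 1 := ⟨r - 1, by omega⟩
    have hq0 : 0 < q := by linarith
    have h5 : (2 : ℝ) ^ m * q ^ 2 ≤ q ^ (m + 1 + 1) := by
      rw [show m + 1 + 1 = m + 2 by ring, pow_add]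
      gcongr
    calc etaK n d / q ^ (m + 1 + 1)
        ≤ (C * ((m + 1 + 1 : ℕ) : ℝ) ^ (n ^ 2)) / ((2 : ℝ) ^ m * q ^ 2) := by
          gcongr
      _ = _ := by
          rw [one_div, one_div, inv_pow, pow_add (2 : ℝ) (m + 1) 1, pow_add (2 : ℝ) m 1]
          field_simp
          ring
  calc ∑ P ∈ T, etaK n d / (Nat.card (𝓞 E ⧸ P.asIdeal) : ℝ) ^ (r + 1)
      ≤ ∑ P ∈ T, (4 * C * (((r + 1 : ℕ) : ℝ) ^ (n ^ 2) * (1 / 2) ^ (r + 1))) *
        (1 / (Nat.card (𝓞 E ⧸ P.asIdeal) : ℝ) ^ 2) := Finset.sum_le_sum h4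
    _ = (4 * C * (((r + 1 : ℕ) : ℝ) ^ (n ^ 2) * (1 / 2) ^ (r + 1))) *
        ∑ P ∈ T, (1 / (Nat.card (𝓞 E ⧸ P.asIdeal) : ℝ) ^ 2) := by rw [Finset.mul_sum]
    _ ≤ (4 * C * (((r + 1 : ℕ) : ℝ) ^ (n ^ 2) * (1 / 2) ^ (r + 1))) * S := by
        have h6 := (summable_norm E).sum_le_tsum T (fun P _ => by positivity)
        gcongr
    _ = 4 * C * S * (((r + 1 : ℕ) : ℝ) ^ (n ^ 2) * (1 / 2) ^ (r + 1)) := by ring
    _ ≤ ε := h3

end Pool.Agent.Lib.MP_6a3dac_ag.Maj
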